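import Mathlib
open Finset

namespace Pool.Agent.Results.MP_20ef18_an.OpAlg

/-- signed sum attached to a subset `s` -/
noncomputable def sgn (s : Finset ℕ) (i : ℕ) : ℂ := if i ∈ s then 1 else -1

lemma norm_sgn (s : Finset ℕ) (i : ℕ) : ‖sgn s i‖ = 1 := by
  unfold sgn; split_ifs <;> simp

noncomputable def sg (c : ℕ → ℂ) (M : ℕ) (s : Finset ℕ) : ℂ := ∑ i ∈ range M, sgn s i * c i

lemma sgn_insert_of_ne {s : Finset ℕ} {M i : ℕ} (h : i ≠ M) : sgn (insert M s) i = sgn s i := by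
  unfold sgn; simp [h]

lemma sg_succ_insert (c : ℕ → ℂ) (M : ℕ) (s : Finset ℕ) :
    sg c (M+1) (insert M s) = sg c M s + c M := by
  unfold sg
  rw [sum_range_succ]
  congr 1
  · apply sum_congr rfl
    intro i hi
    rw [sgn_insert_of_ne]
    have := mem_range.1 hi
    omega
  · simp [sgn]

lemma sg_succ_not (c : ℕ → ℂ) (M : ℕ) (s : Finset ℕ) (h : s ⊆ range M) :
    sg c (M+1) s = sg c M s - c M := by
  unfold sg
  rw [sum_range_succ]
  have : M ∉ s := fun hM => by simpa using h hM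
  simp [sgn, this, sub_eq_add_neg]

lemma sq_pair (z c : ℂ) : ‖z + c‖^2 + ‖z - c‖^2 = 2 * ‖z‖^2 + 2 * ‖c‖^2 := by
  have := parallelogram_law_with_norm ℝ z c
  nlinarith

lemma four_pair (z c : ℂ) : ‖z + c‖^4 + ‖z - c‖^4 ≤ 2 * ‖z‖^4 + 12 * ‖z‖^2 * ‖c‖^2 + 2 * ‖c‖^4 := by
  have h1 : ‖z + c‖^2 = ‖z‖^2 + 2 * (z.re * c.re + z.im * c.im) + ‖c‖^2 := by
    rw [← Complex.normSq_eq_norm_sq, ← Complex.normSq_eq_norm_sq, ← Complex.normSq_eq_norm_sq]
    simp [Complex.normSq_apply]; ring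
  have h2 : ‖z - c‖^2 = ‖z‖^2 - 2 * (z.re * c.re + z.im * c.im) + ‖c‖^2 := by
    rw [← Complex.normSq_eq_norm_sq, ← Complex.normSq_eq_norm_sq, ← Complex.normSq_eq_norm_sq]
    simp [Complex.normSq_apply]; ring
  have h3 : (z.re * c.re + z.im * c.im)^2 ≤ ‖z‖^2 * ‖c‖^2 := by
    rw [← Complex.normSq_eq_norm_sq, ← Complex.normSq_eq_norm_sq]
    simp only [Complex.normSq_apply]
    nlinarith [sq_nonneg (z.re * c.im - z.im * c.re)]
  have e1 : ‖z + c‖^4 = (‖z + c‖^2)^2 := by ring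
  have e2 : ‖z - c‖^4 = (‖z - c‖^2)^2 := by ring
  rw [e1, e2, h1, h2]
  nlinarith

lemma second_moment (c : ℕ → ℂ) (M : ℕ) :
    ∑ s ∈ (range M).powerset, ‖sg c M s‖^2 = 2^M * ∑ i ∈ range M, ‖c i‖^2 := by
  induction M with
  | zero => simp [sg]
  | succ M ih =>
    rw [range_add_one, sum_powerset_insert notMem_range_self, sum_insert notMem_range_self,
      ← sum_add_distrib]
    rw [show M + 1 = M + 1 from rfl]
    have : ∀ s ∈ (range M).powerset, ‖sg c (M+1) s‖^2 + ‖sg c (M+1) (insert M s)‖^2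
        = 2 * ‖sg c M s‖^2 + 2 * ‖c M‖^2 := by
      intro s hs
      rw [sg_succ_insert, sg_succ_not c M s (mem_powerset.1 hs), add_comm]
      exact sq_pair _ _
    rw [sum_congr rfl this, sum_add_distrib, ← mul_sum, ih]
    simp only [sum_const, card_powerset, card_range, nsmul_eq_mul]
    push_cast
    ring

lemma fourth_moment (c : ℕ → ℂ) (M : ℕ) :
    ∑ s ∈ (range M).powerset, ‖sg c M s‖^4 ≤ 3 * 2^M * (∑ i ∈ range M, ‖c i‖^2)^2 := by
  induction M with
  | zero => simp [sg]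
  | succ M ih =>
    rw [range_add_one, sum_powerset_insert notMem_range_self, sum_insert notMem_range_self,
      ← sum_add_distrib]
    have : ∀ s ∈ (range M).powerset, ‖sg c (M+1) s‖^4 + ‖sg c (M+1) (insert M s)‖^4
        ≤ 2 * ‖sg c M s‖^4 + 12 * ‖c M‖^2 * ‖sg c M s‖^2 + 2 * ‖c M‖^4 := by
      intro s hs
      rw [sg_succ_insert, sg_succ_not c M s (mem_powerset.1 hs), add_comm]
      have := four_pair (sg c M s) (c M)
      linarith
    refine (sum_le_sum this).trans ?_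
    rw [sum_add_distrib, sum_add_distrib, ← mul_sum, ← mul_sum, second_moment]
    simp only [sum_const, card_powerset, card_range, nsmul_eq_mul]
    push_cast
    have hp : (0:ℝ) < 2^M := by positivity
    have hS : 0 ≤ ∑ i ∈ range M, ‖c i‖^2 := sum_nonneg (fun _ _ => by positivity)
    set S := ∑ i ∈ range M, ‖c i‖^2
    rw [show (2:ℝ)^(M+1) = 2 * 2^M by ring]
    set P : ℝ := 2^M
    nlinarith [mul_nonneg hp.le (by positivity : (0:ℝ) ≤ ‖c M‖^4)]

/-- Khinchine, L1 lower bound -/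
lemma khinchine (c : ℕ → ℂ) (M : ℕ) :
    2^M * Real.sqrt (∑ i ∈ range M, ‖c i‖^2) ≤ Real.sqrt 3 * ∑ s ∈ (range M).powerset, ‖sg c M s‖ := by
  set S := ∑ i ∈ range M, ‖c i‖^2 with hSdef
  have hS : 0 ≤ S := sum_nonneg (fun _ _ => by positivity)
  rcases hS.eq_or_lt with h0 | hpos
  · rw [← h0]; simp
    positivity
  set σ := Real.sqrt S with hσ
  have hσpos : 0 < σ := Real.sqrt_pos.2 hpos
  have hσ2 : σ^2 = S := Real.sq_sqrt hS
  have h3 : Real.sqrt 3 ^ 2 = 3 := Real.sq_sqrt (by norm_num)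
  have h3pos : 0 < Real.sqrt 3 := Real.sqrt_pos.2 (by norm_num)
  -- pointwise: sqrt 3 * t ≥ (3/2) t^2/σ - (1/6) t^4/σ^3
  have key : ∀ t : ℝ, 0 ≤ t → 9 * σ^2 * t^2 - t^4 ≤ 6 * Real.sqrt 3 * σ^3 * t := by
    intro t ht
    have h9 : 6 * Real.sqrt 3 * σ^3 - 9 * σ^2 * t + t^3 = (t - Real.sqrt 3 * σ)^2 * (t + 2 * Real.sqrt 3 * σ) := by
      ring_nf
      rw [show Real.sqrt 3 ^ 3 = Real.sqrt 3 ^ 2 * Real.sqrt 3 by ring, h3]
      ring
    have : 0 ≤ t * ((t - Real.sqrt 3 * σ)^2 * (t + 2 * Real.sqrt 3 * σ)) := by positivity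
    rw [← h9] at this
    nlinarith
  have hsum : ∑ s ∈ (range M).powerset, (9 * σ^2 * ‖sg c M s‖^2 - ‖sg c M s‖^4)
      ≤ ∑ s ∈ (range M).powerset, 6 * Real.sqrt 3 * σ^3 * ‖sg c M s‖ :=
    sum_le_sum (fun s _ => key _ (norm_nonneg _))
  rw [sum_sub_distrib, ← mul_sum, ← mul_sum, second_moment, ← hSdef] at hsum
  have h4 := fourth_moment c M
  rw [← hSdef] at h4
  rw [← hσ2] at hsum h4
  have : 6 * σ^3 * (2^M * σ) ≤ 6 * σ^3 * (Real.sqrt 3 * ∑ s ∈ (range M).powerset, ‖sg c M s‖) := by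
    nlinarith
  have h6 : 0 < 6 * σ^3 := by positivity
  exact le_of_mul_le_mul_left this h6

/-- The injective norm of the matrix `γ` is at most `B`: every finite section of the form
`(x, y) ↦ ∑ γ m k * x m * y k` is bounded by `B` when `|x m| ≤ 1` and `|y k| ≤ 1`. -/
def InjBound (γ : ℕ → ℕ → ℂ) (B : ℝ) : Prop :=
  ∀ (x y : ℕ → ℂ), (∀ m, ‖x m‖ ≤ 1) → (∀ k, ‖y k‖ ≤ 1) → ∀ M : ℕ,
    ‖∑ m ∈ range M, ∑ k ∈ range M, γ m k * x m * y k‖ ≤ B

lemma InjBound.swap {γ : ℕ → ℕ → ℂ} {B : ℝ} (h : InjBound γ B) : InjBound (fun i j => γ j i) B := by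
  intro x y hx hy M
  have := h y x hy hx M
  rw [sum_comm] at this
  have e : ∑ m ∈ range M, ∑ k ∈ range M, γ k m * x m * y k
      = ∑ m ∈ range M, ∑ k ∈ range M, γ k m * y k * x m :=
    sum_congr rfl (fun i _ => sum_congr rfl (fun j _ => by ring))
  rw [e]; exact this

/-- Littlewood's mixed inequality -/
lemma littlewood {γ : ℕ → ℕ → ℂ} {B : ℝ} (h : InjBound γ B) (M : ℕ) :
    ∑ j ∈ range M, Real.sqrt (∑ i ∈ range M, ‖γ i j‖^2) ≤ Real.sqrt 3 * B := by
  have hp : (0:ℝ) < 2^M := by positivity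
  have h1 : ∀ s ∈ (range M).powerset, ∑ j ∈ range M, ‖sg (fun i => γ i j) M s‖ ≤ B := by
    intro s _
    set y : ℕ → ℂ := fun j => (starRingEnd ℂ) (sg (fun i => γ i j) M s) / ‖sg (fun i => γ i j) M s‖ with hy
    have hy1 : ∀ k, ‖y k‖ ≤ 1 := by
      intro k
      simp only [hy, norm_div, RCLike.norm_conj, Complex.norm_real, norm_norm]
      exact div_self_le_one _
    have := h (sgn s) y (fun m => (norm_sgn s m).le) hy1 M
    rw [sum_comm] at this
    have e : ∑ j ∈ range M, ∑ i ∈ range M, γ i j * sgn s i * y j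
        = ((∑ j ∈ range M, ‖sg (fun i => γ i j) M s‖ : ℝ) : ℂ) := by
      push_cast
      apply sum_congr rfl
      intro j _
      rw [← sum_mul]
      have : ∑ i ∈ range M, γ i j * sgn s i = sg (fun i => γ i j) M s := by
        unfold sg; exact sum_congr rfl (fun i _ => mul_comm _ _)
      rw [this]
      simp only [hy]
      rw [mul_div_assoc', Complex.mul_conj, Complex.normSq_eq_norm_sq]
      by_cases h0 : ‖sg (fun i => γ i j) M s‖ = 0
      · simp [h0]
      · have h0' : (‖sg (fun i => γ i j) M s‖ : ℂ) ≠ 0 := by exact_mod_cast h0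
        push_cast
        field_simp
    rw [e, Complex.norm_real, Real.norm_eq_abs, abs_of_nonneg (sum_nonneg (fun _ _ => norm_nonneg _))] at this
    exact this
  have h2 : ∑ j ∈ range M, (2^M * Real.sqrt (∑ i ∈ range M, ‖γ i j‖^2))
      ≤ ∑ j ∈ range M, Real.sqrt 3 * ∑ s ∈ (range M).powerset, ‖sg (fun i => γ i j) M s‖ :=
    sum_le_sum (fun j _ => khinchine (fun i => γ i j) M)
  rw [← mul_sum, ← mul_sum, sum_comm] at h2
  have h3 : ∑ s ∈ (range M).powerset, ∑ j ∈ range M, ‖sg (fun i => γ i j) M s‖ ≤ 2^M * B := by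
    refine (sum_le_sum h1).trans ?_
    simp
  have h4 : 2^M * ∑ j ∈ range M, Real.sqrt (∑ i ∈ range M, ‖γ i j‖^2) ≤ 2^M * (Real.sqrt 3 * B) := by
    calc _ ≤ _ := h2
      _ ≤ Real.sqrt 3 * (2^M * B) := by gcongr
      _ = _ := by ring
  exact le_of_mul_le_mul_left h4 hp

lemma half {γ : ℕ → ℕ → ℂ} {B : ℝ} (h : InjBound γ B) (Ψ : ℕ → ℂ) {D : ℝ} (hD : 0 ≤ D)
    (hΨ : ∀ j, ∑ n ∈ Icc j (2*j), ‖Ψ n‖^2 ≤ D^2) (M : ℕ) (P : ℕ → ℕ → Prop)
    [DecidableRel P] (hP : ∀ i j, P i j → i ≤ j) :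
    ‖∑ j ∈ range M, ∑ i ∈ range M, (if P i j then Ψ (i+j) else 0) * γ i j‖ ≤ Real.sqrt 3 * D * B := by
  have h1 : ∀ j ∈ range M, ‖∑ i ∈ range M, (if P i j then Ψ (i+j) else 0) * γ i j‖
      ≤ D * Real.sqrt (∑ i ∈ range M, ‖γ i j‖^2) := by
    intro j _
    have a1 : ‖∑ i ∈ range M, (if P i j then Ψ (i+j) else 0) * γ i j‖
        ≤ ∑ i ∈ range M, ‖(if P i j then Ψ (i+j) else 0)‖ * ‖γ i j‖ := by
      refine (norm_sum_le _ _).trans (le_of_eq ?_)
      exact sum_congr rfl (fun i _ => norm_mul _ _)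
    have a2 := Real.sum_mul_le_sqrt_mul_sqrt (range M)
      (fun i => ‖(if P i j then Ψ (i+j) else 0)‖) (fun i => ‖γ i j‖)
    have a3 : ∑ i ∈ range M, ‖(if P i j then Ψ (i+j) else 0)‖^2 ≤ D^2 := by
      refine le_trans ?_ (hΨ j)
      calc ∑ i ∈ range M, ‖(if P i j then Ψ (i+j) else 0)‖^2
          ≤ ∑ i ∈ range M, (if i ≤ j then ‖Ψ (i+j)‖^2 else 0) := by
            apply sum_le_sum
            intro i _
            by_cases hp : P i j
            · simp [hp, hP i j hp]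
            · simp only [hp, if_false, norm_zero]
              split_ifs
              · simp
              · simp
        _ = ∑ i ∈ (range M).filter (fun i => i ≤ j), ‖Ψ (i+j)‖^2 := by rw [sum_filter]
        _ ≤ ∑ i ∈ range (j+1), ‖Ψ (i+j)‖^2 := by
            apply sum_le_sum_of_subset_of_nonneg
            · intro i hi
              simp only [mem_filter, mem_range] at hi ⊢
              omega
            · intros; positivity
        _ = ∑ n ∈ Icc j (2*j), ‖Ψ n‖^2 := by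
            rw [range_eq_Ico, sum_Ico_add' (fun n => ‖Ψ n‖^2) 0 (j+1) j]
            apply sum_congr _ (fun _ _ => rfl)
            ext n
            simp only [mem_Ico, mem_Icc]
            omega
    have a4 : Real.sqrt (∑ i ∈ range M, ‖(if P i j then Ψ (i+j) else 0)‖^2) ≤ D := by
      rw [show D = Real.sqrt (D^2) by rw [Real.sqrt_sq hD]]
      exact Real.sqrt_le_sqrt a3
    calc _ ≤ _ := a1
      _ ≤ _ := a2
      _ ≤ _ := by gcongr
  calc ‖∑ j ∈ range M, ∑ i ∈ range M, (if P i j then Ψ (i+j) else 0) * γ i j‖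
      ≤ ∑ j ∈ range M, ‖∑ i ∈ range M, (if P i j then Ψ (i+j) else 0) * γ i j‖ := norm_sum_le _ _
    _ ≤ ∑ j ∈ range M, D * Real.sqrt (∑ i ∈ range M, ‖γ i j‖^2) := sum_le_sum h1
    _ = D * ∑ j ∈ range M, Real.sqrt (∑ i ∈ range M, ‖γ i j‖^2) := by rw [mul_sum]
    _ ≤ D * (Real.sqrt 3 * B) := by gcongr; exact littlewood h M
    _ = _ := by ring

lemma antidiag_sum (g : ℕ → ℕ → ℂ) (M : ℕ) (hg : ∀ i j, M ≤ i + j → g i j = 0) :
    ∑ n ∈ range M, ∑ p ∈ antidiagonal n, g p.1 p.2 = ∑ j ∈ range M, ∑ i ∈ range M, g i j := by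
  rw [sum_comm, ← sum_product' (range M) (range M) g, sum_sigma' (range M) (fun n => antidiagonal n) (fun _ p => g p.1 p.2)]
  symm
  rw [← sum_filter_of_ne (p := fun p : ℕ × ℕ => p.1 + p.2 < M)]
  · refine sum_bij' (fun p _ => ⟨p.1 + p.2, p⟩) (fun q _ => q.2) ?_ ?_ ?_ ?_ ?_
    · intro p hp
      simp only [mem_filter, mem_product, mem_range] at hp
      simp only [mem_sigma, mem_range, HasAntidiagonal.mem_antidiagonal]
      exact ⟨hp.2, trivial⟩
    · intro q hq
      simp only [mem_sigma, mem_range, HasAntidiagonal.mem_antidiagonal] at hq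
      simp only [mem_filter, mem_product, mem_range]
      omega
    · intro p _; rfl
    · rintro ⟨n, p⟩ hq
      simp only [mem_sigma, mem_range, HasAntidiagonal.mem_antidiagonal] at hq
      obtain ⟨_, rfl⟩ := hq
      rfl
    · intro p _; rfl
  · intro p _ hne
    by_contra hc
    exact hne (hg p.1 p.2 (not_lt.1 hc))

lemma pairing {γ : ℕ → ℕ → ℂ} {B : ℝ} (h : InjBound γ B) (Ψ : ℕ → ℂ) {D : ℝ} (hD : 0 ≤ D)
    (hΨ : ∀ j, ∑ n ∈ Icc j (2*j), ‖Ψ n‖^2 ≤ D^2) (M : ℕ) (hM : ∀ n, M ≤ n → Ψ n = 0) :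
    ‖∑ n ∈ range M, Ψ n * ∑ p ∈ antidiagonal n, γ p.1 p.2‖ ≤ 2 * Real.sqrt 3 * D * B := by
  have e1 : ∑ n ∈ range M, Ψ n * ∑ p ∈ antidiagonal n, γ p.1 p.2
      = ∑ n ∈ range M, ∑ p ∈ antidiagonal n, Ψ (p.1 + p.2) * γ p.1 p.2 := by
    apply sum_congr rfl
    intro n _
    rw [mul_sum]
    apply sum_congr rfl
    intro p hp
    rw [HasAntidiagonal.mem_antidiagonal.1 hp]
  have e2 := antidiag_sum (fun i j => Ψ (i+j) * γ i j) M (fun i j hij => by simp [hM _ hij])
  rw [e1, e2]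
  have e3 : ∑ j ∈ range M, ∑ i ∈ range M, Ψ (i+j) * γ i j
      = (∑ j ∈ range M, ∑ i ∈ range M, (if i ≤ j then Ψ (i+j) else 0) * γ i j)
        + ∑ i ∈ range M, ∑ j ∈ range M, (if j < i then Ψ (j+i) else 0) * γ i j := by
    rw [sum_comm (s := range M) (t := range M) (f := fun i j => (if j < i then Ψ (j+i) else 0) * γ i j),
      ← sum_add_distrib]
    apply sum_congr rfl; intro j _
    rw [← sum_add_distrib]
    apply sum_congr rfl; intro i _
    by_cases hij : i ≤ j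
    · simp [hij, not_lt.2 hij]
    · simp [hij, not_le.1 hij, add_comm]
  rw [e3]
  have b1 := half h Ψ hD hΨ M (fun i j => i ≤ j) (fun _ _ hh => hh)
  have b2 := half h.swap Ψ hD hΨ M (fun i j => i < j) (fun _ _ hh => le_of_lt hh)
  refine (norm_add_le _ _).trans ?_
  linarith

noncomputable def e (t : ℝ) : ℂ := Complex.exp (2 * Real.pi * Complex.I * t)

lemma norm_e (t : ℝ) : ‖e t‖ = 1 := by
  unfold e
  rw [show (2 * Real.pi * Complex.I * t : ℂ) = ((2 * Real.pi * t : ℝ) : ℂ) * Complex.I by push_cast; ring]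
  exact Complex.norm_exp_ofReal_mul_I _

lemma continuous_e : Continuous e := by
  unfold e; fun_prop

lemma int_e (m : ℤ) : ∫ t in (0:ℝ)..1, Complex.exp (2 * Real.pi * Complex.I * m * t) = if m = 0 then 1 else 0 := by
  split_ifs with h
  · subst h; simp
  · have hc : (2 * Real.pi * Complex.I * m : ℂ) ≠ 0 := by
      simp [Real.pi_ne_zero, h]
    rw [integral_exp_mul_complex hc]
    have : Complex.exp (2 * Real.pi * Complex.I * m * (1:ℝ)) = 1 := by
      rw [show (2 * Real.pi * Complex.I * m * (1:ℝ) : ℂ) = m * (2 * Real.pi * Complex.I) by push_cast; ring]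
      exact Complex.exp_int_mul_two_pi_mul_I m
    rw [this]; simp

lemma e_pow_conj (i j : ℕ) (t : ℝ) : e t ^ i * (starRingEnd ℂ) (e t ^ j)
    = Complex.exp (2 * Real.pi * Complex.I * ((i:ℤ) - (j:ℤ) : ℤ) * t) := by
  unfold e
  rw [map_pow, ← Complex.exp_conj, ← Complex.exp_nat_mul, ← Complex.exp_nat_mul, ← Complex.exp_add]
  congr 1
  simp only [map_mul, Complex.conj_I, Complex.conj_ofReal, map_ofNat]
  push_cast
  ring

/-- Parseval for trigonometric polynomials -/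
lemma parseval (α : ℕ → ℂ) (M : ℕ) :
    ∫ t in (0:ℝ)..1, ‖∑ i ∈ range M, α i * e t ^ i‖^2 = ∑ i ∈ range M, ‖α i‖^2 := by
  have h : ((∫ t in (0:ℝ)..1, ‖∑ i ∈ range M, α i * e t ^ i‖^2 : ℝ) : ℂ) = ((∑ i ∈ range M, ‖α i‖^2 : ℝ) : ℂ) := by
    rw [← intervalIntegral.integral_ofReal]
    have h1 : ∀ t : ℝ, ((‖∑ i ∈ range M, α i * e t ^ i‖^2 : ℝ) : ℂ)
        = ∑ i ∈ range M, ∑ j ∈ range M, α i * (starRingEnd ℂ) (α j) *
          Complex.exp (2 * Real.pi * Complex.I * ((i:ℤ) - (j:ℤ) : ℤ) * t) := by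
      intro t
      rw [← Complex.normSq_eq_norm_sq, ← Complex.mul_conj, map_sum, sum_mul_sum]
      apply sum_congr rfl; intro i _
      apply sum_congr rfl; intro j _
      rw [← e_pow_conj, map_mul]
      ring
    simp_rw [h1]
    have hint : ∀ i j : ℕ, IntervalIntegrable (fun t : ℝ => α i * (starRingEnd ℂ) (α j) *
          Complex.exp (2 * Real.pi * Complex.I * ((i:ℤ) - (j:ℤ) : ℤ) * t)) MeasureTheory.volume 0 1 := by
      intro i j
      apply Continuous.intervalIntegrable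
      fun_prop
    rw [intervalIntegral.integral_finsetSum]
    · rw [Complex.ofReal_sum]
      apply sum_congr rfl; intro i hi
      rw [intervalIntegral.integral_finsetSum]
      · simp_rw [intervalIntegral.integral_const_mul]
        rw [sum_eq_single i]
        · have := int_e ((i:ℤ) - (i:ℤ))
          rw [this]
          simp [Complex.mul_conj, Complex.normSq_eq_norm_sq]
        · intro j _ hj
          have := int_e ((i:ℤ) - (j:ℤ))
          rw [this, if_neg]
          · simp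
          · intro h0; apply hj; omega
        · intro h0; exact absurd hi h0
      · intro j _; exact hint i j
    · intro i _
      apply Continuous.intervalIntegrable
      fun_prop
  exact_mod_cast h

/-- value on the circle of a power series with absolutely summable coefficients -/
noncomputable def ev (u : PowerSeries ℂ) (z : ℂ) : ℂ := ∑' n, PowerSeries.coeff n u * z ^ n

def AS (u : PowerSeries ℂ) : Prop := Summable fun n => ‖PowerSeries.coeff n u‖

lemma AS.nm {u : PowerSeries ℂ} (hu : AS u) {z : ℂ} (hz : ‖z‖ = 1) :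
    Summable fun n => ‖PowerSeries.coeff n u * z ^ n‖ := by
  have h : (fun n => ‖PowerSeries.coeff n u * z ^ n‖) = fun n => ‖PowerSeries.coeff n u‖ := by
    funext n; rw [norm_mul, norm_pow, hz, one_pow, mul_one]
  rw [h]; exact hu

lemma AS.mul {u v : PowerSeries ℂ} (hu : AS u) (hv : AS v) : AS (u * v) := by
  have h := summable_norm_sum_mul_antidiagonal_of_summable_norm
    (f := fun n => PowerSeries.coeff n u) (g := fun n => PowerSeries.coeff n v) hu hv
  have h2 : (fun n => ‖PowerSeries.coeff n (u * v)‖)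
      = fun n => ‖∑ kl ∈ HasAntidiagonal.antidiagonal n, PowerSeries.coeff kl.1 u * PowerSeries.coeff kl.2 v‖ := by
    funext n; rw [PowerSeries.coeff_mul]
  unfold AS
  rw [h2]; exact h

lemma ev_mul {u v : PowerSeries ℂ} (hu : AS u) (hv : AS v) {z : ℂ} (hz : ‖z‖ = 1) :
    ev (u * v) z = ev u z * ev v z := by
  unfold ev
  rw [tsum_mul_tsum_eq_tsum_sum_antidiagonal_of_summable_norm (hu.nm hz) (hv.nm hz)]
  apply tsum_congr
  intro n
  rw [PowerSeries.coeff_mul, sum_mul]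
  apply sum_congr rfl
  intro p hp
  rw [← HasAntidiagonal.mem_antidiagonal.1 hp, pow_add]
  ring

lemma AS_poly (p : Polynomial ℂ) : AS (p : PowerSeries ℂ) := by
  unfold AS
  apply summable_of_ne_finset_zero (s := range (p.natDegree + 1))
  intro n hn
  rw [Polynomial.coeff_coe, Polynomial.coeff_eq_zero_of_natDegree_lt]
  · simp
  · simpa using hn

lemma ev_poly (p : Polynomial ℂ) (z : ℂ) : ev (p : PowerSeries ℂ) z = p.eval z := by
  unfold ev
  rw [tsum_eq_sum (s := range (p.natDegree + 1)), Polynomial.eval_eq_sum_range]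
  · simp
  · intro n hn
    rw [Polynomial.coeff_coe, Polynomial.coeff_eq_zero_of_natDegree_lt]
    · simp
    · simpa using hn

/-- Bessel inequality for absolutely summable power series -/
lemma bessel {u : PowerSeries ℂ} (hu : AS u) (L : ℕ) :
    ∑ i ∈ range L, ‖PowerSeries.coeff i u‖^2 ≤ ∫ t in (0:ℝ)..1, ‖ev u (e t)‖^2 := by
  have hlim : Filter.Tendsto (fun M => ∫ t in (0:ℝ)..1, ‖∑ i ∈ range M, PowerSeries.coeff i u * e t ^ i‖^2)
      Filter.atTop (nhds (∫ t in (0:ℝ)..1, ‖ev u (e t)‖^2)) := by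
    apply intervalIntegral.tendsto_integral_filter_of_dominated_convergence
      (fun _ => (∑' n, ‖PowerSeries.coeff n u‖)^2)
    · apply Filter.Eventually.of_forall
      intro M
      apply Continuous.aestronglyMeasurable
      have := continuous_e
      fun_prop
    · apply Filter.Eventually.of_forall
      intro M
      apply Filter.Eventually.of_forall
      intro t _
      rw [Real.norm_of_nonneg (by positivity)]
      gcongr
      refine (norm_sum_le _ _).trans ?_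
      calc ∑ i ∈ range M, ‖PowerSeries.coeff i u * e t ^ i‖ = ∑ i ∈ range M, ‖PowerSeries.coeff i u‖ := by
            apply sum_congr rfl; intro i _; simp [norm_e]
        _ ≤ _ := hu.sum_le_tsum _ (fun _ _ => norm_nonneg _)
    · exact intervalIntegrable_const
    · apply Filter.Eventually.of_forall
      intro t _
      have h1 := (hu.nm (norm_e t)).of_norm.hasSum.tendsto_sum_nat
      exact (h1.norm.pow 2)
  refine ge_of_tendsto hlim ?_
  filter_upwards [Filter.eventually_ge_atTop L] with M hM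
  rw [parseval]
  exact sum_le_sum_of_subset_of_nonneg (range_mono hM) (fun _ _ _ => by positivity)

lemma choose_norm_le {r : ℂ} (hr : ‖r‖ ≤ 1) (n : ℕ) : ‖Ring.choose r n‖ ≤ 1 := by
  induction n with
  | zero => simp
  | succ k ih =>
    have h := Ring.choose_smul_choose r (Nat.le_succ k)
    rw [show k.succ - k = 1 by omega, Ring.choose_one_right, Nat.choose_succ_self_right, nsmul_eq_mul] at h
    have h2 : ((k:ℝ)+1) * ‖Ring.choose r (k+1)‖ ≤ ((k:ℝ)+1) * 1 := by
      have h3 : ‖((k+1 : ℕ) : ℂ) * Ring.choose r (k+1)‖ = ‖Ring.choose r k * (r - k)‖ := by rw [← h]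
      rw [norm_mul, norm_mul, Complex.norm_natCast] at h3
      push_cast at h3
      rw [h3]
      have h4 : ‖r - (k:ℂ)‖ ≤ (k:ℝ) + 1 := by
        refine (norm_sub_le _ _).trans ?_
        rw [Complex.norm_natCast]; linarith
      have := norm_nonneg (Ring.choose r k)
      have := norm_nonneg (r - (k:ℂ))
      nlinarith
    exact le_of_mul_le_mul_left h2 (by positivity)

noncomputable def bs (r w : ℂ) : PowerSeries ℂ := PowerSeries.rescale (-w) (PowerSeries.binomialSeries ℂ r)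

lemma AS_bs {r w : ℂ} (hr : ‖r‖ ≤ 1) (hw : ‖w‖ < 1) : AS (bs r w) := by
  unfold AS bs
  refine Summable.of_nonneg_of_le (fun _ => norm_nonneg _) (fun n => ?_)
    (summable_geometric_of_lt_one (norm_nonneg w) hw)
  rw [PowerSeries.coeff_rescale, PowerSeries.binomialSeries_coeff, norm_mul, norm_pow, norm_neg,
    smul_eq_mul, mul_one]
  have := choose_norm_le hr n
  have h2 : 0 ≤ ‖w‖^n := by positivity
  nlinarith

lemma bs_mul (r s w : ℂ) : bs r w * bs s w = bs (r+s) w := by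
  unfold bs
  rw [PowerSeries.binomialSeries_add, map_mul]

lemma bs_one (w : ℂ) : bs 1 w = ((1 - Polynomial.C w * Polynomial.X : Polynomial ℂ) : PowerSeries ℂ) := by
  unfold bs
  have := PowerSeries.binomialSeries_nat (R := ℂ) (A := ℂ) 1
  rw [Nat.cast_one] at this
  rw [this]
  simp [PowerSeries.rescale_X, sub_eq_add_neg]

lemma bs_zero (w : ℂ) : bs 0 w = 1 := by
  unfold bs
  rw [PowerSeries.binomialSeries_zero, map_one]

/-- the factorisation property -/
def FP (p : Polynomial ℂ) : Prop :=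
  ∃ u v : PowerSeries ℂ, AS u ∧ AS v ∧ u * v = (p : PowerSeries ℂ) ∧
    ∀ z : ℂ, ‖z‖ = 1 → ‖ev u z‖^2 = ‖p.eval z‖ ∧ ‖ev v z‖^2 = ‖p.eval z‖

lemma FP.mul {p q : Polynomial ℂ} (hp : FP p) (hq : FP q) : FP (p * q) := by
  obtain ⟨u, v, hu, hv, huv, h⟩ := hp
  obtain ⟨u', v', hu', hv', huv', h'⟩ := hq
  refine ⟨u * u', v * v', hu.mul hu', hv.mul hv', ?_, ?_⟩
  · rw [Polynomial.coe_mul, ← huv, ← huv']; ring
  · intro z hz
    rw [ev_mul hu hu' hz, ev_mul hv hv' hz, norm_mul, norm_mul, mul_pow, mul_pow, (h z hz).1,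
      (h z hz).2, (h' z hz).1, (h' z hz).2, Polynomial.eval_mul, norm_mul]
    exact ⟨rfl, rfl⟩

lemma ev_sq {u : PowerSeries ℂ} {p : Polynomial ℂ} (hu : AS u) (h : u * u = (p : PowerSeries ℂ))
    {z : ℂ} (hz : ‖z‖ = 1) : ‖ev u z‖^2 = ‖p.eval z‖ := by
  rw [← ev_poly, ← h, ev_mul hu hu hz, norm_mul, sq]

lemma FP_C (c : ℂ) : FP (Polynomial.C c) := by
  obtain ⟨d, hd⟩ := IsAlgClosed.exists_eq_mul_self c
  have h : ((Polynomial.C d : Polynomial ℂ) : PowerSeries ℂ) * ((Polynomial.C d : Polynomial ℂ) : PowerSeries ℂ)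
      = ((Polynomial.C c : Polynomial ℂ) : PowerSeries ℂ) := by
    rw [← Polynomial.coe_mul, ← Polynomial.C_mul, ← hd]
  exact ⟨_, _, AS_poly _, AS_poly _, h, fun z hz => ⟨ev_sq (AS_poly _) h hz, ev_sq (AS_poly _) h hz⟩⟩

lemma norm_half : ‖(1/2 : ℂ)‖ ≤ 1 := by norm_num

lemma FP_of_gt {a : ℂ} (ha : 1 < ‖a‖) : FP (Polynomial.X - Polynomial.C a) := by
  have ha0 : a ≠ 0 := by rintro rfl; simp at ha; linarith
  obtain ⟨d, hd⟩ := IsAlgClosed.exists_eq_mul_self (-a)
  have hw : ‖a⁻¹‖ < 1 := by rw [norm_inv]; exact inv_lt_one_of_one_lt₀ ha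
  have hu : AS (((Polynomial.C d : Polynomial ℂ) : PowerSeries ℂ) * bs (1/2) a⁻¹) :=
    (AS_poly _).mul (AS_bs norm_half hw)
  have h : ((Polynomial.C d : Polynomial ℂ) : PowerSeries ℂ) * bs (1/2) a⁻¹ *
      (((Polynomial.C d : Polynomial ℂ) : PowerSeries ℂ) * bs (1/2) a⁻¹)
      = ((Polynomial.X - Polynomial.C a : Polynomial ℂ) : PowerSeries ℂ) := by
    rw [mul_mul_mul_comm, bs_mul, add_halves, bs_one, ← Polynomial.coe_mul, ← Polynomial.coe_mul,
      ← Polynomial.C_mul, ← hd, mul_sub, mul_one, ← mul_assoc, ← Polynomial.C_mul]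
    congr 1
    rw [neg_mul, mul_inv_cancel₀ ha0]
    simp
    ring
  exact ⟨_, _, hu, hu, h, fun z hz => ⟨ev_sq hu h hz, ev_sq hu h hz⟩⟩

lemma FP_of_lt {a : ℂ} (ha : ‖a‖ < 1) : FP (Polynomial.X - Polynomial.C a) := by
  have hw : ‖(starRingEnd ℂ) a‖ < 1 := by rwa [RCLike.norm_conj]
  set w := (starRingEnd ℂ) a with hwdef
  have hs : AS (bs (1/2) w) := AS_bs norm_half hw
  have hq : AS (bs (-(1/2)) w) := AS_bs (by rw [norm_neg]; exact norm_half) hw
  have hss : bs (1/2) w * bs (1/2) w = ((1 - Polynomial.C w * Polynomial.X : Polynomial ℂ) : PowerSeries ℂ) := by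
    rw [bs_mul, add_halves, bs_one]
  have hsq : bs (1/2) w * bs (-(1/2)) w = 1 := by
    rw [bs_mul, add_neg_cancel, bs_zero]
  have hv := (AS_poly (Polynomial.X - Polynomial.C a)).mul hq
  refine ⟨bs (1/2) w, ((Polynomial.X - Polynomial.C a : Polynomial ℂ) : PowerSeries ℂ) * bs (-(1/2)) w,
    hs, hv, ?_, ?_⟩
  · rw [mul_left_comm, hsq, mul_one]
  · intro z hz
    have h1 : ‖ev (bs (1/2) w) z‖^2 = ‖z - a‖ := by
      rw [ev_sq hs hss hz]
      simp only [Polynomial.eval_sub, Polynomial.eval_one, Polynomial.eval_mul, Polynomial.eval_C,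
        Polynomial.eval_X]
      have hzz : (starRingEnd ℂ) z * z = 1 := by
        rw [mul_comm, Complex.mul_conj, Complex.normSq_eq_norm_sq, hz]; simp
      rw [show (1 - w * z : ℂ) = (starRingEnd ℂ) (z - a) * z by
        rw [map_sub, sub_mul, hzz]]
      rw [norm_mul, RCLike.norm_conj, hz, mul_one]
    have h0 : ‖z - a‖ ≠ 0 := by
      rw [norm_ne_zero_iff, sub_ne_zero]
      rintro rfl; linarith
    have h2 : ev (bs (1/2) w) z * ev (bs (-(1/2)) w) z = 1 := by
      rw [← ev_mul hs hq hz, hsq]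
      have := ev_poly 1 z
      simpa using this
    have h3 : ‖z - a‖ * ‖ev (bs (-(1/2)) w) z‖^2 = 1 := by
      rw [← h1, ← mul_pow, ← norm_mul, h2]; simp
    have he : ‖(Polynomial.X - Polynomial.C a).eval z‖ = ‖z - a‖ := by simp
    refine ⟨by rw [h1, he], ?_⟩
    rw [ev_mul (AS_poly _) hq hz, norm_mul, ev_poly, mul_pow, he]
    calc ‖z - a‖^2 * ‖ev (bs (-(1/2)) w) z‖^2 = ‖z - a‖ * (‖z - a‖ * ‖ev (bs (-(1/2)) w) z‖^2) := by ring
      _ = ‖z - a‖ := by rw [h3, mul_one]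

/-- Riesz type factorisation of polynomials without zeros on the unit circle. -/
lemma FP_of_roots (p : Polynomial ℂ) (h : ∀ a ∈ p.roots, ‖a‖ ≠ 1) : FP p := by
  have hsp := IsAlgClosed.splits p
  have hp := hsp.eq_prod_roots
  rw [hp]
  apply FP.mul (FP_C _)
  have key : ∀ s : Multiset ℂ, (∀ a ∈ s, ‖a‖ ≠ 1) →
      FP (Multiset.map (fun x => Polynomial.X - Polynomial.C x) s).prod := by
    intro s
    induction s using Multiset.induction_on with
    | empty => intro _; simpa using FP_C 1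
    | cons a s ih =>
      intro hs
      rw [Multiset.map_cons, Multiset.prod_cons]
      apply FP.mul
      · rcases lt_or_gt_of_ne (hs a (Multiset.mem_cons_self a s)) with h1 | h1
        · exact FP_of_lt h1
        · exact FP_of_gt h1
      · exact ih (fun b hb => hs b (Multiset.mem_cons_of_mem hb))
  exact key _ h


lemma fourierCoeff_nat (F : C(UnitAddCircle, ℂ)) (n : ℕ) :
    fourierCoeff F (n : ℤ) = ∫ t in (0:ℝ)..1, (starRingEnd ℂ) (e t ^ n) * F (t : UnitAddCircle) := by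
  rw [fourierCoeff_eq_intervalIntegral F (n : ℤ) 0]
  simp only [zero_add, one_div, inv_one, one_smul, smul_eq_mul]
  apply intervalIntegral.integral_congr
  intro t _
  simp only
  rw [fourier_coe_apply]
  congr 1
  unfold e
  rw [map_pow, ← Complex.exp_conj, ← Complex.exp_nat_mul]
  congr 1
  simp only [map_mul, Complex.conj_I, Complex.conj_ofReal, map_ofNat]
  push_cast
  ring

lemma continuous_F (F : C(UnitAddCircle, ℂ)) : Continuous (fun t : ℝ => F (t : UnitAddCircle)) :=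
  F.continuous.comp (AddCircle.continuous_mk' 1)

lemma inj_hankel (F : C(UnitAddCircle, ℂ)) {u v : PowerSeries ℂ} (I : ℝ)
    (hu : ∀ L, ∑ i ∈ range L, ‖PowerSeries.coeff i u‖^2 ≤ I)
    (hv : ∀ L, ∑ i ∈ range L, ‖PowerSeries.coeff i v‖^2 ≤ I) :
    InjBound (fun i j => fourierCoeff F ((i + j : ℕ) : ℤ) * PowerSeries.coeff i u * PowerSeries.coeff j v)
      (‖F‖ * I) := by
  intro x y hx hy M
  set A : ℝ → ℂ := fun t => ∑ i ∈ range M, (starRingEnd ℂ) (PowerSeries.coeff i u * x i) * e t ^ i with hA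
  set Bf : ℝ → ℂ := fun t => ∑ i ∈ range M, (starRingEnd ℂ) (PowerSeries.coeff i v * y i) * e t ^ i with hB
  have hAc : Continuous A := by
    have := continuous_e
    rw [hA]; fun_prop
  have hBc : Continuous Bf := by
    have := continuous_e
    rw [hB]; fun_prop
  have hFc := continuous_F F
  have e1 : ∑ m ∈ range M, ∑ k ∈ range M, fourierCoeff F ((m + k : ℕ) : ℤ) * PowerSeries.coeff m u *
      PowerSeries.coeff k v * x m * y k
      = ∫ t in (0:ℝ)..1, F (t : UnitAddCircle) * ((starRingEnd ℂ) (A t) * (starRingEnd ℂ) (Bf t)) := by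
    have h1 : ∀ t : ℝ, F (t : UnitAddCircle) * ((starRingEnd ℂ) (A t) * (starRingEnd ℂ) (Bf t))
        = ∑ m ∈ range M, ∑ k ∈ range M, (PowerSeries.coeff m u * x m * (PowerSeries.coeff k v * y k)) *
          ((starRingEnd ℂ) (e t ^ (m+k)) * F (t : UnitAddCircle)) := by
      intro t
      simp only [hA, hB]
      rw [map_sum, map_sum, sum_mul_sum, mul_sum]
      apply sum_congr rfl; intro m _
      rw [mul_sum]
      apply sum_congr rfl; intro k _
      simp only [map_mul, Complex.conj_conj, pow_add]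
      ring
    simp_rw [h1]
    have hint : ∀ m k : ℕ, Continuous (fun t : ℝ => (PowerSeries.coeff m u * x m * (PowerSeries.coeff k v * y k)) *
          ((starRingEnd ℂ) (e t ^ (m+k)) * F (t : UnitAddCircle))) := by
      intro m k
      have := continuous_e
      fun_prop
    rw [intervalIntegral.integral_finsetSum]
    · apply sum_congr rfl; intro m _
      rw [intervalIntegral.integral_finsetSum]
      · apply sum_congr rfl; intro k _
        rw [intervalIntegral.integral_const_mul, ← fourierCoeff_nat]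
        ring
      · intro k _; exact (hint m k).intervalIntegrable _ _
    · intro m _
      apply Continuous.intervalIntegrable
      exact continuous_finsetSum _ (fun k _ => hint m k)
  rw [e1]
  have hFn : ∀ t : ℝ, ‖F (t : UnitAddCircle)‖ ≤ ‖F‖ := fun t => F.norm_coe_le_norm _
  have b1 : ‖∫ t in (0:ℝ)..1, F (t : UnitAddCircle) * ((starRingEnd ℂ) (A t) * (starRingEnd ℂ) (Bf t))‖
      ≤ ∫ t in (0:ℝ)..1, ‖F‖ * ((‖A t‖^2 + ‖Bf t‖^2) / 2) := by
    apply intervalIntegral.norm_integral_le_of_norm_le (by norm_num)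
    · apply Filter.Eventually.of_forall
      intro t _
      rw [norm_mul, norm_mul, RCLike.norm_conj, RCLike.norm_conj]
      have h1 := hFn t
      have h2 := norm_nonneg (F (t : UnitAddCircle))
      have h3 : ‖A t‖ * ‖Bf t‖ ≤ (‖A t‖^2 + ‖Bf t‖^2) / 2 := by nlinarith [sq_nonneg (‖A t‖ - ‖Bf t‖)]
      have h4 : 0 ≤ ‖A t‖ * ‖Bf t‖ := by positivity
      calc ‖F (t : UnitAddCircle)‖ * (‖A t‖ * ‖Bf t‖) ≤ ‖F‖ * (‖A t‖ * ‖Bf t‖) := by gcongr
        _ ≤ _ := by gcongr
    · apply Continuous.intervalIntegrable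
      fun_prop
  refine b1.trans ?_
  rw [intervalIntegral.integral_const_mul]
  have b2 : ∫ t in (0:ℝ)..1, (‖A t‖^2 + ‖Bf t‖^2) / 2
      = ((∫ t in (0:ℝ)..1, ‖A t‖^2) + (∫ t in (0:ℝ)..1, ‖Bf t‖^2)) / 2 := by
    rw [intervalIntegral.integral_div, intervalIntegral.integral_add]
    · apply Continuous.intervalIntegrable; fun_prop
    · apply Continuous.intervalIntegrable; fun_prop
  rw [b2]
  simp only [hA, hB]
  rw [parseval, parseval]
  have c1 : ∑ i ∈ range M, ‖(starRingEnd ℂ) (PowerSeries.coeff i u * x i)‖^2 ≤ I := by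
    refine le_trans (sum_le_sum ?_) (hu M)
    intro i _
    rw [RCLike.norm_conj, norm_mul]
    have := hx i
    have := norm_nonneg (x i)
    have := norm_nonneg (PowerSeries.coeff i u)
    gcongr
    nlinarith
  have c2 : ∑ i ∈ range M, ‖(starRingEnd ℂ) (PowerSeries.coeff i v * y i)‖^2 ≤ I := by
    refine le_trans (sum_le_sum ?_) (hv M)
    intro i _
    rw [RCLike.norm_conj, norm_mul]
    have := hy i
    have := norm_nonneg (y i)
    have := norm_nonneg (PowerSeries.coeff i v)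
    gcongr
    nlinarith
  have : 0 ≤ ‖F‖ := norm_nonneg _
  gcongr
  linarith

/-- the key inequality for polynomials without zeros on the unit circle -/
lemma key_poly (F : C(UnitAddCircle, ℂ)) (Ψ : ℕ → ℂ) {D : ℝ} (hD : 0 ≤ D)
    (hΨ : ∀ j, ∑ n ∈ Icc j (2*j), ‖Ψ n‖^2 ≤ D^2) (M : ℕ) (hM : ∀ n, M ≤ n → Ψ n = 0)
    (p : Polynomial ℂ) (hp : ∀ a ∈ p.roots, ‖a‖ ≠ 1) :
    ‖∑ n ∈ range M, Ψ n * (fourierCoeff F (n : ℤ) * p.coeff n)‖
      ≤ 2 * Real.sqrt 3 * D * (‖F‖ * ∫ t in (0:ℝ)..1, ‖p.eval (e t)‖) := by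
  obtain ⟨u, v, hu, hv, huv, h⟩ := FP_of_roots p hp
  have hu' : ∀ L, ∑ i ∈ range L, ‖PowerSeries.coeff i u‖^2 ≤ ∫ t in (0:ℝ)..1, ‖p.eval (e t)‖ := by
    intro L
    refine (bessel hu L).trans (le_of_eq ?_)
    apply intervalIntegral.integral_congr
    intro t _
    exact (h (e t) (norm_e t)).1
  have hv' : ∀ L, ∑ i ∈ range L, ‖PowerSeries.coeff i v‖^2 ≤ ∫ t in (0:ℝ)..1, ‖p.eval (e t)‖ := by
    intro L
    refine (bessel hv L).trans (le_of_eq ?_)
    apply intervalIntegral.integral_congr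
    intro t _
    exact (h (e t) (norm_e t)).2
  have hb := pairing (inj_hankel F _ hu' hv') Ψ hD hΨ M hM
  have e1 : ∑ n ∈ range M, Ψ n * (fourierCoeff F (n : ℤ) * p.coeff n)
      = ∑ n ∈ range M, Ψ n * ∑ q ∈ HasAntidiagonal.antidiagonal n,
        fourierCoeff F ((q.1 + q.2 : ℕ) : ℤ) * PowerSeries.coeff q.1 u * PowerSeries.coeff q.2 v := by
    apply sum_congr rfl; intro n _
    congr 1
    rw [← Polynomial.coeff_coe, ← huv, PowerSeries.coeff_mul, mul_sum]
    apply sum_congr rfl; intro q hq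
    rw [HasAntidiagonal.mem_antidiagonal.1 hq]
    ring
  rw [e1]
  exact hb

/-- the key inequality for all polynomials -/
lemma key_poly' (F : C(UnitAddCircle, ℂ)) (Ψ : ℕ → ℂ) {D : ℝ} (hD : 0 ≤ D)
    (hΨ : ∀ j, ∑ n ∈ Icc j (2*j), ‖Ψ n‖^2 ≤ D^2) (M : ℕ) (hM : ∀ n, M ≤ n → Ψ n = 0)
    (p : Polynomial ℂ) :
    ‖∑ n ∈ range M, Ψ n * (fourierCoeff F (n : ℤ) * p.coeff n)‖
      ≤ 2 * Real.sqrt 3 * D * (‖F‖ * ∫ t in (0:ℝ)..1, ‖p.eval (e t)‖) := by
  rcases eq_or_ne p 0 with rfl | hp0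
  · simp
  have hl : Filter.Tendsto (fun r : ℝ => ‖∑ n ∈ range M, Ψ n * (fourierCoeff F (n : ℤ) * (p.coeff n * (r:ℂ)^n))‖)
      (nhdsWithin 1 (Set.Iio 1)) (nhds ‖∑ n ∈ range M, Ψ n * (fourierCoeff F (n : ℤ) * p.coeff n)‖) := by
    have hc : Continuous (fun r : ℝ => ‖∑ n ∈ range M, Ψ n * (fourierCoeff F (n : ℤ) * (p.coeff n * (r:ℂ)^n))‖) := by
      fun_prop
    have := (hc.tendsto 1).mono_left (nhdsWithin_le_nhds (s := Set.Iio 1))
    simpa using this
  have hr : Filter.Tendsto (fun r : ℝ => 2 * Real.sqrt 3 * D * (‖F‖ * ∫ t in (0:ℝ)..1, ‖p.eval ((r:ℂ) * e t)‖))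
      (nhdsWithin 1 (Set.Iio 1)) (nhds (2 * Real.sqrt 3 * D * (‖F‖ * ∫ t in (0:ℝ)..1, ‖p.eval (e t)‖))) := by
    have hc : Continuous (fun r : ℝ => ∫ t in (0:ℝ)..1, ‖p.eval ((r:ℂ) * e t)‖) := by
      apply intervalIntegral.continuous_parametric_intervalIntegral_of_continuous'
      have h1 := continuous_e
      have h2 := p.continuous
      fun_prop
    have h3 := (hc.tendsto 1).mono_left (nhdsWithin_le_nhds (s := Set.Iio 1))
    simp only [Complex.ofReal_one, one_mul] at h3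
    exact (h3.const_mul _).const_mul _
  refine le_of_tendsto_of_tendsto hl hr ?_
  set S : Set ℝ := (fun a : ℂ => ‖a‖) '' {a | a ∈ p.roots} with hS
  have hSf : S.Finite := by
    apply Set.Finite.image
    exact (Multiset.toFinset p.roots).finite_toSet.subset (by intro a ha; simpa using ha)
  have hev1 : ∀ᶠ r in nhdsWithin (1:ℝ) (Set.Iio 1), r ∉ S \ {1} := by
    apply Filter.Eventually.filter_mono nhdsWithin_le_nhds
    exact (hSf.subset Set.sdiff_subset).isClosed.isOpen_compl.mem_nhds (by simp)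
  have hev2 : ∀ᶠ r in nhdsWithin (1:ℝ) (Set.Iio 1), r < 1 := eventually_mem_nhdsWithin
  have hev3 : ∀ᶠ r in nhdsWithin (1:ℝ) (Set.Iio 1), 0 < r :=
    Filter.Eventually.filter_mono nhdsWithin_le_nhds (lt_mem_nhds (by norm_num))
  filter_upwards [hev1, hev2, hev3] with r h1 h2 h3
  have hroots : ∀ a ∈ (p.comp (Polynomial.C (r:ℂ) * Polynomial.X)).roots, ‖a‖ ≠ 1 := by
    intro a ha hna
    have hroot := (Polynomial.mem_roots'.1 ha).2
    rw [Polynomial.IsRoot.def, Polynomial.eval_comp] at hroot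
    simp only [Polynomial.eval_mul, Polynomial.eval_C, Polynomial.eval_X] at hroot
    have hmem : (r:ℂ) * a ∈ p.roots := (Polynomial.mem_roots hp0).2 hroot
    apply h1
    refine ⟨⟨(r:ℂ) * a, hmem, ?_⟩, ?_⟩
    · simp only [norm_mul, hna, mul_one, Complex.norm_real, Real.norm_eq_abs, abs_of_pos h3]
    · simp only [Set.mem_singleton_iff]; linarith
  have := key_poly F Ψ hD hΨ M hM _ hroots
  simp only [Polynomial.comp_C_mul_X_coeff, Polynomial.eval_comp, Polynomial.eval_mul, Polynomial.eval_C,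
    Polynomial.eval_X] at this
  exact this

/-- The mean of `|g|` on the circle of radius `r`, where `g(z) = ∑ coeff n g * z ^ n`. -/
noncomputable def hardyMean (g : PowerSeries ℂ) (r : ℝ) : ℝ :=
  ∫ t in (0:ℝ)..1, ‖∑' n, PowerSeries.coeff n g * ((r:ℂ) * Complex.exp (2 * Real.pi * Complex.I * t)) ^ n‖

lemma key_hardy (F : C(UnitAddCircle, ℂ)) (Ψ : ℕ → ℂ) {D : ℝ} (hD : 0 ≤ D)
    (hΨ : ∀ j, ∑ n ∈ Icc j (2*j), ‖Ψ n‖^2 ≤ D^2) (M : ℕ) (hM : ∀ n, M ≤ n → Ψ n = 0)
    (g : PowerSeries ℂ) (hg : ∀ r : ℝ, 0 ≤ r → r < 1 → Summable fun n => ‖PowerSeries.coeff n g‖ * r ^ n)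
    {B : ℝ} (hB : ∀ r : ℝ, 0 ≤ r → r < 1 → hardyMean g r ≤ B) :
    ‖∑ n ∈ range M, Ψ n * (fourierCoeff F (n : ℤ) * PowerSeries.coeff n g)‖
      ≤ 2 * Real.sqrt 3 * D * (‖F‖ * B) := by
  have step : ∀ r : ℝ, 0 ≤ r → r < 1 →
      ‖∑ n ∈ range M, Ψ n * (fourierCoeff F (n : ℤ) * (PowerSeries.coeff n g * (r:ℂ)^n))‖
      ≤ 2 * Real.sqrt 3 * D * (‖F‖ * B) := by
    intro r hr0 hr1
    have hsum : ∀ t : ℝ, Summable fun n => ‖PowerSeries.coeff n g * ((r:ℂ) * e t) ^ n‖ := by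
      intro t
      have h : (fun n => ‖PowerSeries.coeff n g * ((r:ℂ) * e t) ^ n‖) = fun n => ‖PowerSeries.coeff n g‖ * r ^ n := by
        funext n
        rw [norm_mul, norm_pow, norm_mul, norm_e, Complex.norm_real, Real.norm_eq_abs, abs_of_nonneg hr0, mul_one]
      rw [h]; exact hg r hr0 hr1
    set P : ℕ → Polynomial ℂ := fun L => ∑ n ∈ range L, Polynomial.monomial n (PowerSeries.coeff n g * (r:ℂ)^n) with hP
    have hPe : ∀ L t, (P L).eval (e t) = ∑ n ∈ range L, PowerSeries.coeff n g * ((r:ℂ) * e t) ^ n := by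
      intro L t
      simp only [hP, Polynomial.eval_finsetSum, Polynomial.eval_monomial]
      apply sum_congr rfl; intro n _
      rw [mul_pow]; ring
    have hlim : Filter.Tendsto (fun L => ∫ t in (0:ℝ)..1, ‖(P L).eval (e t)‖) Filter.atTop
        (nhds (hardyMean g r)) := by
      unfold hardyMean
      apply intervalIntegral.tendsto_integral_filter_of_dominated_convergence
        (fun _ => ∑' n, ‖PowerSeries.coeff n g‖ * r^n)
      · apply Filter.Eventually.of_forall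
        intro L
        apply Continuous.aestronglyMeasurable
        have h1 := continuous_e
        have h2 := (P L).continuous
        fun_prop
      · apply Filter.Eventually.of_forall
        intro L
        apply Filter.Eventually.of_forall
        intro t _
        rw [norm_norm, hPe]
        refine (norm_sum_le _ _).trans ?_
        calc ∑ n ∈ range L, ‖PowerSeries.coeff n g * ((r:ℂ) * e t) ^ n‖
            = ∑ n ∈ range L, ‖PowerSeries.coeff n g‖ * r ^ n := by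
              apply sum_congr rfl; intro n _
              rw [norm_mul, norm_pow, norm_mul, norm_e, Complex.norm_real, Real.norm_eq_abs, abs_of_nonneg hr0, mul_one]
          _ ≤ _ := (hg r hr0 hr1).sum_le_tsum _ (fun _ _ => by positivity)
      · exact intervalIntegrable_const
      · apply Filter.Eventually.of_forall
        intro t _
        simp_rw [hPe]
        have h1 := (hsum t).of_norm.hasSum.tendsto_sum_nat
        exact h1.norm
    have hconst : ∀ᶠ L in Filter.atTop, ‖∑ n ∈ range M, Ψ n * (fourierCoeff F (n : ℤ) * (PowerSeries.coeff n g * (r:ℂ)^n))‖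
        ≤ 2 * Real.sqrt 3 * D * (‖F‖ * ∫ t in (0:ℝ)..1, ‖(P L).eval (e t)‖) := by
      filter_upwards [Filter.eventually_ge_atTop M] with L hL
      have := key_poly' F Ψ hD hΨ M hM (P L)
      refine le_trans (le_of_eq ?_) this
      congr 1
      apply sum_congr rfl; intro n hn
      have hn' : n < L := lt_of_lt_of_le (mem_range.1 hn) hL
      simp only [hP, Polynomial.finsetSum_coeff, Polynomial.coeff_monomial]
      rw [sum_ite_eq' (range L) n]
      simp [hn']
    have h1 := ge_of_tendsto ((hlim.const_mul ‖F‖).const_mul (2 * Real.sqrt 3 * D)) hconst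
    refine h1.trans ?_
    have := hB r hr0 hr1
    gcongr
  have hl : Filter.Tendsto (fun r : ℝ => ‖∑ n ∈ range M, Ψ n * (fourierCoeff F (n : ℤ) * (PowerSeries.coeff n g * (r:ℂ)^n))‖)
      (nhdsWithin 1 (Set.Iio 1)) (nhds ‖∑ n ∈ range M, Ψ n * (fourierCoeff F (n : ℤ) * PowerSeries.coeff n g)‖) := by
    have hc : Continuous (fun r : ℝ => ‖∑ n ∈ range M, Ψ n * (fourierCoeff F (n : ℤ) * (PowerSeries.coeff n g * (r:ℂ)^n))‖) := by
      fun_prop
    have := (hc.tendsto 1).mono_left (nhdsWithin_le_nhds (s := Set.Iio 1))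
    simpa using this
  refine le_of_tendsto hl ?_
  have hev2 : ∀ᶠ r in nhdsWithin (1:ℝ) (Set.Iio 1), r < 1 := eventually_mem_nhdsWithin
  have hev3 : ∀ᶠ r in nhdsWithin (1:ℝ) (Set.Iio 1), 0 < r :=
    Filter.Eventually.filter_mono nhdsWithin_le_nhds (lt_mem_nhds (by norm_num))
  filter_upwards [hev2, hev3] with r h2 h3
  exact step r h3.le h2

noncomputable def ζ (N : ℕ) : ℂ := Complex.exp (2 * Real.pi * Complex.I / N)

lemma ζ_prim {N : ℕ} (hN : 0 < N) : IsPrimitiveRoot (ζ N) N := Complex.isPrimitiveRoot_exp N hN.ne'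

lemma norm_ζ (N : ℕ) : ‖ζ N‖ = 1 := by
  unfold ζ
  rw [show (2 * Real.pi * Complex.I / N : ℂ) = ((2 * Real.pi / N : ℝ) : ℂ) * Complex.I by push_cast; ring]
  exact Complex.norm_exp_ofReal_mul_I _

lemma conj_mul_ζ (N : ℕ) : (starRingEnd ℂ) (ζ N) * ζ N = 1 := by
  rw [mul_comm, Complex.mul_conj, Complex.normSq_eq_norm_sq, norm_ζ]; simp

lemma geom_zero {q : ℂ} {N : ℕ} (hq : q^N = 1) (h1 : q ≠ 1) : ∑ k ∈ range N, q^k = 0 := by
  have := mul_geom_sum q N
  rw [hq, sub_self] at this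
  exact (mul_eq_zero.1 this).resolve_left (sub_ne_zero.2 h1)

lemma orth {N : ℕ} (hN : 0 < N) {a b : ℕ} (ha : a < N) (hb : b < N) :
    ∑ k ∈ range N, (starRingEnd ℂ) (ζ N ^ (k*a)) * ζ N ^ (k*b) = if a = b then (N:ℂ) else 0 := by
  have h1 : ∀ k, (starRingEnd ℂ) (ζ N ^ (k*a)) * ζ N ^ (k*b) = ((starRingEnd ℂ) (ζ N) ^ a * ζ N ^ b)^k := by
    intro k
    rw [map_pow, mul_pow, ← pow_mul, ← pow_mul, mul_comm a k, mul_comm b k]
  simp_rw [h1]
  split_ifs with hab
  · subst hab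
    rw [← mul_pow, conj_mul_ζ]; simp
  · apply geom_zero
    · rw [mul_pow, ← pow_mul, ← pow_mul, mul_comm a N, mul_comm b N, pow_mul, pow_mul, ← map_pow,
        (ζ_prim hN).pow_eq_one]; simp
    · intro hq
      apply hab
      have h2 : ζ N ^ b = ζ N ^ a := by
        have h3 : ζ N ^ a * ((starRingEnd ℂ) (ζ N) ^ a * ζ N ^ b) = ζ N ^ b := by
          rw [← mul_assoc, ← mul_pow, mul_comm (ζ N), conj_mul_ζ]; simp
        rw [← h3, hq, mul_one]
      exact ((ζ_prim hN).pow_inj hb ha h2).symm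

section hilbert
variable {H : Type*} [NormedAddCommGroup H] [InnerProductSpace ℂ H]

lemma parseval_gen {N : ℕ} (c : ℕ → ℕ → ℂ)
    (hc : ∀ a b, a < N → b < N → ∑ k ∈ range N, (starRingEnd ℂ) (c k a) * c k b = if a = b then (N:ℂ) else 0)
    (u : ℕ → H) :
    ∑ k ∈ range N, ‖∑ a ∈ range N, c k a • u a‖^2 = N * ∑ a ∈ range N, ‖u a‖^2 := by
  have hz : ∀ z : H, inner ℂ z z = ((‖z‖:ℝ):ℂ)^2 := fun z => inner_self_eq_norm_sq_to_K z
  have h : ((∑ k ∈ range N, ‖∑ a ∈ range N, c k a • u a‖^2 : ℝ) : ℂ)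
      = ((N * ∑ a ∈ range N, ‖u a‖^2 : ℝ) : ℂ) := by
    push_cast
    have h1 : ∀ k, ((‖∑ a ∈ range N, c k a • u a‖ : ℂ))^2
        = ∑ a ∈ range N, ∑ b ∈ range N, (starRingEnd ℂ) (c k a) * c k b * inner ℂ (u a) (u b) := by
      intro k
      rw [← hz, sum_inner]
      apply sum_congr rfl; intro a _
      rw [inner_sum]
      apply sum_congr rfl; intro b _
      rw [inner_smul_left, inner_smul_right]
      ring
    simp_rw [h1]
    rw [sum_comm, mul_sum]
    apply sum_congr rfl; intro a ha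
    rw [sum_comm]
    simp_rw [← sum_mul]
    rw [sum_congr rfl (fun b hb => by rw [hc a b (mem_range.1 ha) (mem_range.1 hb)])]
    simp only [ite_mul, zero_mul, sum_ite_eq, ha, if_true]
    rw [hz]
  exact_mod_cast h

lemma parsevalN {N : ℕ} (hN : 0 < N) (u : ℕ → H) :
    ∑ k ∈ range N, ‖∑ a ∈ range N, ζ N ^ (k*a) • u a‖^2 = N * ∑ a ∈ range N, ‖u a‖^2 :=
  parseval_gen (fun k a => ζ N ^ (k*a)) (fun _ _ ha hb => orth hN ha hb) u

lemma parsevalN' {N : ℕ} (hN : 0 < N) (u : ℕ → H) :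
    ∑ k ∈ range N, ‖∑ a ∈ range N, (starRingEnd ℂ) (ζ N ^ (k*a)) • u a‖^2 = N * ∑ a ∈ range N, ‖u a‖^2 := by
  apply parseval_gen (fun k a => (starRingEnd ℂ) (ζ N ^ (k*a)))
  intro a b ha hb
  have := orth hN hb ha
  simp only [Complex.conj_conj]
  rw [sum_congr rfl (fun k _ => mul_comm _ _), this]
  simp only [eq_comm]

/-- the lacunary positions -/
def Lam (N k : ℕ) : ℕ := N * 4^(k+1)

variable [CompleteSpace H]

lemma op_bound {N : ℕ} (hN : 0 < N) (T : H →L[ℂ] H) {K : ℝ} (hK : 0 ≤ K) (hT : ∀ n : ℕ, ‖T^n‖ ≤ K) :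
    ‖∑ k ∈ range N, ∑ a ∈ range N, ∑ b ∈ range N, ζ N ^ (k*(a+b)) • T^(Lam N k + (a + b))‖
      ≤ N^2 * K^3 := by
  apply ContinuousLinearMap.opNorm_le_bound _ (by positivity)
  intro x
  set y := (∑ k ∈ range N, ∑ a ∈ range N, ∑ b ∈ range N, ζ N ^ (k*(a+b)) • T^(Lam N k + (a + b))) x with hy
  -- vectors
  set X : ℕ → H := fun k => ∑ a ∈ range N, ζ N ^ (k*a) • (T^a) x with hX
  set Y : ℕ → H := fun k => ∑ b ∈ range N, (starRingEnd ℂ) (ζ N ^ (k*b)) • (ContinuousLinearMap.adjoint (T^b)) y with hY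
  have hy2 : y = ∑ k ∈ range N, ∑ a ∈ range N, ∑ b ∈ range N, ζ N ^ (k*(a+b)) • (T^(Lam N k + (a + b))) x := by
    rw [hy]; simp [_root_.sum_apply]
  have hin : inner ℂ y y = ∑ k ∈ range N, inner ℂ (Y k) ((T^(Lam N k)) (X k)) := by
    have hyy : inner ℂ y y = inner ℂ y (∑ k ∈ range N, ∑ a ∈ range N, ∑ b ∈ range N,
      ζ N ^ (k*(a+b)) • (T^(Lam N k + (a + b))) x) := by rw [← hy2]
    rw [hyy, inner_sum]
    apply sum_congr rfl; intro k _
    simp only [hX, hY, map_sum, sum_inner, inner_sum]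
    rw [sum_comm]
    apply sum_congr rfl; intro b _
    apply sum_congr rfl; intro a _
    simp only [map_smul, inner_smul_left, inner_smul_right, ContinuousLinearMap.adjoint_inner_left,
      Complex.conj_conj]
    simp only [← mul_apply_eq_comp, ← pow_add, mul_add]
    rw [show a + (Lam N k + b) = Lam N k + (a + b) by ring]
    rw [pow_add]
    ring
  have hXs : ∑ k ∈ range N, ‖X k‖^2 ≤ (N * K * ‖x‖)^2 := by
    simp only [hX]
    rw [parsevalN hN]
    have : ∀ a ∈ range N, ‖(T^a) x‖^2 ≤ (K * ‖x‖)^2 := by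
      intro a _
      have := (T^a).le_of_opNorm_le (hT a) x
      gcongr
    calc (N:ℝ) * ∑ a ∈ range N, ‖(T^a) x‖^2 ≤ N * ∑ a ∈ range N, (K * ‖x‖)^2 := by
          gcongr with a ha; exact (T^a).le_of_opNorm_le (hT a) x
      _ = _ := by simp; ring
  have hYs : ∑ k ∈ range N, ‖Y k‖^2 ≤ (N * K * ‖y‖)^2 := by
    simp only [hY]
    rw [parsevalN' hN]
    calc (N:ℝ) * ∑ a ∈ range N, ‖(ContinuousLinearMap.adjoint (T^a)) y‖^2 ≤ N * ∑ a ∈ range N, (K * ‖y‖)^2 := by
          gcongr with a ha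
          refine (ContinuousLinearMap.adjoint (T^a)).le_of_opNorm_le ?_ y
          rw [LinearIsometryEquiv.norm_map]; exact hT a
      _ = _ := by simp; ring
  have h1 : ‖y‖^2 ≤ ∑ k ∈ range N, ‖Y k‖ * (K * ‖X k‖) := by
    have h2 : (‖y‖^2 : ℝ) = ‖inner ℂ y y‖ := by
      rw [inner_self_eq_norm_sq_to_K]; simp
    rw [h2, hin]
    refine (norm_sum_le _ _).trans (sum_le_sum (fun k _ => ?_))
    refine (norm_inner_le_norm _ _).trans ?_
    gcongr
    exact (T^(Lam N k)).le_of_opNorm_le (hT _) _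
  have h3 : ∑ k ∈ range N, ‖Y k‖ * (K * ‖X k‖) ≤ (N * K * ‖y‖) * (K * (N * K * ‖x‖)) := by
    have h4 := Real.sum_mul_le_sqrt_mul_sqrt (range N) (fun k => ‖Y k‖) (fun k => ‖X k‖)
    have h5 : Real.sqrt (∑ k ∈ range N, ‖Y k‖^2) ≤ N * K * ‖y‖ := by
      rw [← Real.sqrt_sq (show 0 ≤ N * K * ‖y‖ by positivity)]
      exact Real.sqrt_le_sqrt hYs
    have h6 : Real.sqrt (∑ k ∈ range N, ‖X k‖^2) ≤ N * K * ‖x‖ := by
      rw [← Real.sqrt_sq (show 0 ≤ N * K * ‖x‖ by positivity)]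
      exact Real.sqrt_le_sqrt hXs
    calc ∑ k ∈ range N, ‖Y k‖ * (K * ‖X k‖) = K * ∑ k ∈ range N, ‖Y k‖ * ‖X k‖ := by
          rw [mul_sum]; apply sum_congr rfl; intro k _; ring
      _ ≤ K * (Real.sqrt (∑ k ∈ range N, ‖Y k‖^2) * Real.sqrt (∑ k ∈ range N, ‖X k‖^2)) := by gcongr
      _ ≤ K * ((N * K * ‖y‖) * (N * K * ‖x‖)) := by gcongr
      _ = _ := by ring
  have h7 : ‖y‖^2 ≤ ‖y‖ * (N^2 * K^3 * ‖x‖) := by
    calc ‖y‖^2 ≤ _ := h1.trans h3
      _ = _ := by ring
  rcases (norm_nonneg y).eq_or_lt with h0 | hpos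
  · rw [← h0]; positivity
  · have : ‖y‖ * ‖y‖ ≤ ‖y‖ * (N^2 * K^3 * ‖x‖) := by rw [← sq]; exact h7
    exact le_of_mul_le_mul_left this hpos

end hilbert

/-- the test sequence -/
noncomputable def Psi (N n : ℕ) : ℂ :=
  ∑ k ∈ range N, if Lam N k ≤ n ∧ n < Lam N k + 2 * N then (starRingEnd ℂ) (ζ N ^ (k * (n - Lam N k))) else 0

lemma Lam_pos (N k : ℕ) : 4 * N ≤ Lam N k := by
  unfold Lam
  have : 4 ≤ 4^(k+1) := by
    calc 4 = 4^1 := by norm_num
      _ ≤ 4^(k+1) := Nat.pow_le_pow_right (by norm_num) (by omega)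
  nlinarith

lemma Lam_lt {N k l : ℕ} (h : k < l) : 4 * Lam N k ≤ Lam N l := by
  unfold Lam
  have : 4 * 4^(k+1) ≤ 4^(l+1) := by
    calc 4 * 4^(k+1) = 4^(k+2) := by ring
      _ ≤ 4^(l+1) := Nat.pow_le_pow_right (by norm_num) (by omega)
  nlinarith

lemma block_unique {N j k l n n' : ℕ} (hn : j ≤ n ∧ n ≤ 2*j) (hn' : j ≤ n' ∧ n' ≤ 2*j)
    (h1 : Lam N k ≤ n ∧ n < Lam N k + 2*N) (h2 : Lam N l ≤ n' ∧ n' < Lam N l + 2*N) : k = l := by
  have hk := Lam_pos N k
  have hl := Lam_pos N l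
  rcases lt_trichotomy k l with h | h | h
  · have := Lam_lt (N := N) h; omega
  · exact h
  · have := Lam_lt (N := N) h; omega

lemma Psi_block {N k n : ℕ} (hk : k < N) (h : Lam N k ≤ n ∧ n < Lam N k + 2*N) :
    Psi N n = (starRingEnd ℂ) (ζ N ^ (k * (n - Lam N k))) := by
  unfold Psi
  rw [sum_eq_single k]
  · rw [if_pos h]
  · intro l _ hlk
    rw [if_neg]
    intro h2
    exact hlk (block_unique (j := n) (by omega) (by omega) h2 h)
  · intro h; exact absurd (mem_range.2 hk) h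

lemma Psi_off {N n : ℕ} (h : ∀ k < N, ¬ (Lam N k ≤ n ∧ n < Lam N k + 2*N)) : Psi N n = 0 := by
  unfold Psi
  apply sum_eq_zero
  intro k hk
  rw [if_neg (h k (mem_range.1 hk))]

lemma Psi_zero {N n : ℕ} (h : Lam N N ≤ n) : Psi N n = 0 := by
  apply Psi_off
  intro k hk h2
  have := Lam_lt (N := N) hk
  have := Lam_pos N k
  omega

lemma Psi_window (N j : ℕ) : ∑ n ∈ Icc j (2*j), ‖Psi N n‖^2 ≤ (Real.sqrt (2 * N))^2 := by
  rw [Real.sq_sqrt (by positivity)]
  by_cases hex : ∃ k < N, ∃ n ∈ Icc j (2*j), Lam N k ≤ n ∧ n < Lam N k + 2*N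
  · obtain ⟨k, hk, n₀, hn₀, hb₀⟩ := hex
    rw [mem_Icc] at hn₀
    have hle : ∀ n ∈ Icc j (2*j), ‖Psi N n‖^2 ≤ if n ∈ Ico (Lam N k) (Lam N k + 2*N) then (1:ℝ) else 0 := by
      intro n hn
      rw [mem_Icc] at hn
      by_cases hb : Lam N k ≤ n ∧ n < Lam N k + 2*N
      · rw [if_pos (mem_Ico.2 hb), Psi_block hk hb, RCLike.norm_conj, norm_pow, norm_ζ]
        simp
      · rw [if_neg (fun h => hb (mem_Ico.1 h))]
        rw [Psi_off]
        · simp
        · intro l hl hb2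
          have := block_unique hn hn₀ hb2 hb₀
          subst this
          exact hb hb2
    calc ∑ n ∈ Icc j (2*j), ‖Psi N n‖^2
        ≤ ∑ n ∈ Icc j (2*j), if n ∈ Ico (Lam N k) (Lam N k + 2*N) then (1:ℝ) else 0 := sum_le_sum hle
      _ = (((Icc j (2*j)).filter (fun n => n ∈ Ico (Lam N k) (Lam N k + 2*N))).card : ℝ) := by
          rw [sum_boole]
      _ ≤ ((Ico (Lam N k) (Lam N k + 2*N)).card : ℝ) := by
          exact_mod_cast card_le_card (fun x hx => (mem_filter.1 hx).2)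
      _ = 2 * N := by simp
  · push Not at hex
    rw [sum_eq_zero]
    · positivity
    · intro n hn
      rw [Psi_off]
      · simp
      · intro k hk h
        have := hex k hk n hn h.1
        omega

/-- the test polynomial -/
noncomputable def Phi (N : ℕ) : Polynomial ℂ :=
  ∑ k ∈ range N, ∑ a ∈ range N, ∑ b ∈ range N, Polynomial.monomial (Lam N k + (a + b)) (ζ N ^ (k * (a + b)))

lemma Phi_coeff_zero (N : ℕ) : (Phi N).coeff 0 = 0 := by
  unfold Phi
  simp only [Polynomial.finsetSum_coeff, Polynomial.coeff_monomial]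
  apply sum_eq_zero; intro k hk
  apply sum_eq_zero; intro a ha
  apply sum_eq_zero; intro b hb
  rw [if_neg]
  have := Lam_pos N k
  have := mem_range.1 hk
  omega

lemma Phi_pairing (N : ℕ) : ∑ n ∈ range (Lam N N), Psi N n * (Phi N).coeff n = (N:ℂ)^3 := by
  unfold Phi
  simp only [Polynomial.finsetSum_coeff, Polynomial.coeff_monomial, mul_sum]
  rw [sum_comm]
  have h : ∀ k ∈ range N, ∑ n ∈ range (Lam N N), ∑ a ∈ range N, ∑ b ∈ range N,
      Psi N n * (if Lam N k + (a + b) = n then ζ N ^ (k * (a + b)) else 0) = (N:ℂ)^2 := by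
    intro k hk
    have hk' := mem_range.1 hk
    rw [sum_comm]
    have h2 : ∀ a ∈ range N, ∑ n ∈ range (Lam N N), ∑ b ∈ range N,
      Psi N n * (if Lam N k + (a + b) = n then ζ N ^ (k * (a + b)) else 0) = (N:ℂ) := by
      intro a ha
      have ha' := mem_range.1 ha
      rw [sum_comm]
      have h3 : ∀ b ∈ range N, ∑ n ∈ range (Lam N N),
        Psi N n * (if Lam N k + (a + b) = n then ζ N ^ (k * (a + b)) else 0) = (1:ℂ) := by
        intro b hb
        have hb' := mem_range.1 hb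
        have hL := Lam_lt (N := N) hk'
        have hL2 := Lam_pos N k
        have hmem : Lam N k + (a + b) ∈ range (Lam N N) := by
          rw [mem_range]; omega
        simp only [mul_ite, mul_zero]
        rw [sum_ite_eq (range (Lam N N)) (Lam N k + (a + b)), if_pos hmem]
        rw [Psi_block hk' (by omega), show Lam N k + (a + b) - Lam N k = a + b by omega,
          map_pow, ← mul_pow, conj_mul_ζ, one_pow]
      rw [sum_congr rfl h3]; simp
    rw [sum_congr rfl h2]; simp; ring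
  rw [sum_congr rfl h]; simp; ring

lemma Phi_aeval {H : Type*} [NormedAddCommGroup H] [InnerProductSpace ℂ H] (N : ℕ) (T : H →L[ℂ] H) :
    Polynomial.aeval T (Phi N)
      = ∑ k ∈ range N, ∑ a ∈ range N, ∑ b ∈ range N, ζ N ^ (k*(a+b)) • T^(Lam N k + (a + b)) := by
  unfold Phi
  simp only [map_sum, Polynomial.aeval_monomial]
  refine sum_congr rfl (fun k _ => sum_congr rfl (fun a _ => sum_congr rfl (fun b _ => ?_)))
  rw [← Algebra.smul_def]


/-! ## The spaces -/

/-- `φ` has Taylor coefficients given by the antidiagonal sums of the matrix `γ`. -/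
def Represents (γ : ℕ → ℕ → ℂ) (φ : PowerSeries ℂ) : Prop :=
  ∀ n, ∑ p ∈ HasAntidiagonal.antidiagonal n, γ p.1 p.2 = PowerSeries.coeff n φ

/-- `γ` belongs to the injective tensor product: it is a limit, in the injective norm, of matrices
with finitely many nonzero entries. -/
def InInjective (γ : ℕ → ℕ → ℂ) : Prop :=
  ∀ ε > 0, ∃ δ : ℕ → ℕ → ℂ, (∃ M, ∀ m k, M ≤ m ∨ M ≤ k → δ m k = 0) ∧
    InjBound (fun m k => γ m k - δ m k) ε

lemma InjBound.zero : InjBound (fun _ _ => 0) 0 := by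
  intro x y _ _ M; simp

lemma InjBound.add {γ γ' : ℕ → ℕ → ℂ} {B B' : ℝ} (h : InjBound γ B) (h' : InjBound γ' B') :
    InjBound (fun m k => γ m k + γ' m k) (B + B') := by
  intro x y hx hy M
  have e1 : ∑ m ∈ range M, ∑ k ∈ range M, (γ m k + γ' m k) * x m * y k
      = (∑ m ∈ range M, ∑ k ∈ range M, γ m k * x m * y k)
        + ∑ m ∈ range M, ∑ k ∈ range M, γ' m k * x m * y k := by
    rw [← sum_add_distrib]
    refine sum_congr rfl (fun m _ => ?_)
    rw [← sum_add_distrib]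
    exact sum_congr rfl (fun k _ => by ring)
  rw [e1]
  exact (norm_add_le _ _).trans (add_le_add (h x y hx hy M) (h' x y hx hy M))

lemma InjBound.smul {γ : ℕ → ℕ → ℂ} {B : ℝ} (c : ℂ) (h : InjBound γ B) :
    InjBound (fun m k => c * γ m k) (‖c‖ * B) := by
  intro x y hx hy M
  have e1 : ∑ m ∈ range M, ∑ k ∈ range M, c * γ m k * x m * y k
      = c * (∑ m ∈ range M, ∑ k ∈ range M, γ m k * x m * y k) := by
    rw [mul_sum]
    refine sum_congr rfl (fun m _ => ?_)
    rw [mul_sum]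
    exact sum_congr rfl (fun k _ => by ring)
  rw [e1, norm_mul]
  exact mul_le_mul_of_nonneg_left (h x y hx hy M) (norm_nonneg _)

lemma InjBound.nonneg {γ : ℕ → ℕ → ℂ} {B : ℝ} (h : InjBound γ B) : 0 ≤ B := by
  simpa using h (fun _ => 0) (fun _ => 0) (by simp) (by simp) 0

lemma InInjective.zero : InInjective (fun _ _ => 0) := by
  intro ε hε
  refine ⟨fun _ _ => 0, ⟨0, by simp⟩, ?_⟩
  intro x y _ _ M; simp; exact hε.le

lemma InInjective.add {γ γ' : ℕ → ℕ → ℂ} (h : InInjective γ) (h' : InInjective γ') :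
    InInjective (fun m k => γ m k + γ' m k) := by
  intro ε hε
  obtain ⟨δ, ⟨M, hM⟩, hδ⟩ := h (ε/2) (by positivity)
  obtain ⟨δ', ⟨M', hM'⟩, hδ'⟩ := h' (ε/2) (by positivity)
  refine ⟨fun m k => δ m k + δ' m k, ⟨max M M', ?_⟩, ?_⟩
  · intro m k hmk
    simp only
    rw [hM m k (by omega), hM' m k (by omega), add_zero]
  · have := hδ.add hδ'
    rw [add_halves] at this
    intro x y hx hy L
    have h1 := this x y hx hy L
    refine le_trans (le_of_eq ?_) h1
    congr 1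
    refine sum_congr rfl (fun m _ => sum_congr rfl (fun k _ => by ring))

lemma InInjective.smul {γ : ℕ → ℕ → ℂ} (c : ℂ) (h : InInjective γ) :
    InInjective (fun m k => c * γ m k) := by
  intro ε hε
  have hc : 0 < ‖c‖ + 1 := by positivity
  obtain ⟨δ, ⟨M, hM⟩, hδ⟩ := h (ε/(‖c‖+1)) (by positivity)
  refine ⟨fun m k => c * δ m k, ⟨M, ?_⟩, ?_⟩
  · intro m k hmk
    simp only
    rw [hM m k hmk, mul_zero]
  · intro x y hx hy L
    have h1 := (hδ.smul c) x y hx hy L
    have h2 : ‖c‖ * (ε/(‖c‖+1)) ≤ ε := by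
      rw [mul_div_assoc', div_le_iff₀ hc]; nlinarith
    refine le_trans (le_of_eq ?_) (h1.trans h2)
    congr 1
    refine sum_congr rfl (fun m _ => sum_congr rfl (fun k _ => by ring))

lemma Represents.zero : Represents (fun _ _ => 0) 0 := by
  intro n; simp

lemma Represents.add {γ γ' : ℕ → ℕ → ℂ} {φ φ' : PowerSeries ℂ} (h : Represents γ φ) (h' : Represents γ' φ') :
    Represents (fun m k => γ m k + γ' m k) (φ + φ') := by
  intro n; rw [sum_add_distrib, h n, h' n, map_add]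

lemma Represents.smul {γ : ℕ → ℕ → ℂ} {φ : PowerSeries ℂ} (c : ℂ) (h : Represents γ φ) :
    Represents (fun m k => c * γ m k) (c • φ) := by
  intro n; rw [← mul_sum, h n, PowerSeries.coeff_smul, smul_eq_mul]

/-- The space `𝓛`: power series whose Taylor coefficients are the antidiagonal sums of a matrix in the
injective tensor product of `ℓ¹` with itself. -/
def spaceL : Set (PowerSeries ℂ) := {φ | ∃ γ B, InInjective γ ∧ InjBound γ B ∧ Represents γ φ}

/-- `𝓛` is a linear space. -/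
def submoduleL : Submodule ℂ (PowerSeries ℂ) where
  carrier := spaceL
  zero_mem' := ⟨_, _, InInjective.zero, InjBound.zero, Represents.zero⟩
  add_mem' := by
    rintro φ φ' ⟨γ, B, h1, h2, h3⟩ ⟨γ', B', h1', h2', h3'⟩
    exact ⟨_, _, h1.add h1', h2.add h2', h3.add h3'⟩
  smul_mem' := by
    rintro c φ ⟨γ, B, h1, h2, h3⟩
    exact ⟨_, _, h1.smul c, h2.smul c, h3.smul c⟩

/-- The norm of `𝓛`: the infimum of the injective norms of such matrices. -/
noncomputable def normL (φ : PowerSeries ℂ) : ℝ :=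
  sInf {B : ℝ | ∃ γ, InInjective γ ∧ InjBound γ B ∧ Represents γ φ}

/-- `F`, continuous on the circle, has the Taylor coefficients of `f` as its Fourier coefficients of
index at least `0`. -/
def Extends (F : C(UnitAddCircle, ℂ)) (f : PowerSeries ℂ) : Prop :=
  ∀ n : ℕ, fourierCoeff F (n : ℤ) = PowerSeries.coeff n f

/-- Membership in `VMO_A`. -/
def InVMOA (f : PowerSeries ℂ) : Prop := ∃ F, Extends F f

/-- The norm of `VMO_A`: the infimum of the sup norms of the continuous extensions. -/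
noncomputable def vmoNorm (f : PowerSeries ℂ) : ℝ := sInf {s : ℝ | ∃ F, Extends F f ∧ s = ‖F‖}

/-- Membership in the Hardy space `H¹`: analytic in the disc with bounded means on circles. -/
def InHardy (g : PowerSeries ℂ) : Prop :=
  (∀ r : ℝ, 0 ≤ r → r < 1 → Summable fun n => ‖PowerSeries.coeff n g‖ * r ^ n) ∧
  BddAbove (hardyMean g '' Set.Ico 0 1)

/-- The norm of `H¹`: the supremum of the means over the circles of radius `r < 1`. -/
noncomputable def hardyNorm (g : PowerSeries ℂ) : ℝ := sSup (hardyMean g '' Set.Ico 0 1)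

/-- `φ` is the sum of the convolutions (Hadamard products) of `f m ∈ VMO_A` and `g m ∈ H¹`, with a
summable sequence of products of norms. -/
def Decomposes (f g : ℕ → PowerSeries ℂ) (φ : PowerSeries ℂ) : Prop :=
  (∀ m, InVMOA (f m)) ∧ (∀ m, InHardy (g m)) ∧
  Summable (fun m => vmoNorm (f m) * hardyNorm (g m)) ∧
  ∀ n, HasSum (fun m => PowerSeries.coeff n (f m) * PowerSeries.coeff n (g m)) (PowerSeries.coeff n φ)

/-- The norm of `VMO_A ⊗̂ H¹`: the infimum of `∑ ‖f m‖ ‖g m‖` over all such decompositions. -/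
noncomputable def normVH (φ : PowerSeries ℂ) : ℝ :=
  sInf {s : ℝ | ∃ f g, Decomposes f g φ ∧ s = ∑' m, vmoNorm (f m) * hardyNorm (g m)}

/-! ### facts about the two factors -/

lemma vmoNorm_nonneg (f : PowerSeries ℂ) : 0 ≤ vmoNorm f := by
  apply Real.sInf_nonneg
  rintro s ⟨F, _, rfl⟩
  exact norm_nonneg _

lemma hardyMean_nonneg (g : PowerSeries ℂ) (r : ℝ) : 0 ≤ hardyMean g r := by
  unfold hardyMean
  exact intervalIntegral.integral_nonneg (by norm_num) (fun _ _ => norm_nonneg _)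

lemma hardyNorm_nonneg (g : PowerSeries ℂ) : 0 ≤ hardyNorm g := by
  apply Real.sSup_nonneg
  rintro s ⟨r, _, rfl⟩
  exact hardyMean_nonneg g r

lemma vmoNorm_le {F : C(UnitAddCircle, ℂ)} {f : PowerSeries ℂ} (h : Extends F f) : vmoNorm f ≤ ‖F‖ := by
  apply csInf_le
  · refine ⟨0, ?_⟩
    rintro s ⟨F, _, rfl⟩
    exact norm_nonneg _
  · exact ⟨F, h, rfl⟩

lemma InVMOA.zero : InVMOA 0 := ⟨0, by intro n; simp [fourierCoeff]⟩

lemma vmoNorm_zero : vmoNorm 0 = 0 := by
  apply le_antisymm _ (vmoNorm_nonneg _)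
  have := vmoNorm_le (F := 0) (f := 0) (by intro n; simp [fourierCoeff])
  simpa using this

lemma fourierCoeff_smul' (c : ℂ) (F : C(UnitAddCircle, ℂ)) (n : ℤ) :
    fourierCoeff (c • F : C(UnitAddCircle, ℂ)) n = c * fourierCoeff F n := by
  have := fourierCoeff.const_smul (F : UnitAddCircle → ℂ) c n
  rw [smul_eq_mul] at this
  exact this

lemma Extends.smul {F : C(UnitAddCircle, ℂ)} {f : PowerSeries ℂ} (c : ℂ) (h : Extends F f) :
    Extends (c • F) (c • f) := by
  intro n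
  rw [fourierCoeff_smul', h n, PowerSeries.coeff_smul, smul_eq_mul]

lemma InVMOA.smul {f : PowerSeries ℂ} (c : ℂ) (h : InVMOA f) : InVMOA (c • f) := by
  obtain ⟨F, hF⟩ := h
  exact ⟨_, hF.smul c⟩

lemma vmoNorm_smul_le {f : PowerSeries ℂ} (c : ℂ) (h : InVMOA f) : vmoNorm (c • f) ≤ ‖c‖ * vmoNorm f := by
  rcases eq_or_ne c 0 with rfl | hc
  · rw [zero_smul, vmoNorm_zero]; simp
  have hc' : 0 < ‖c‖ := norm_pos_iff.2 hc
  rw [← div_le_iff₀' hc']
  obtain ⟨F₀, hF₀⟩ := h
  have hne : {s : ℝ | ∃ F, Extends F f ∧ s = ‖F‖}.Nonempty := ⟨‖F₀‖, F₀, hF₀, rfl⟩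
  refine le_csInf hne ?_
  rintro s ⟨F, hF, rfl⟩
  rw [div_le_iff₀' hc']
  refine (vmoNorm_le (hF.smul c)).trans ?_
  rw [norm_smul]

lemma InHardy.zero : InHardy 0 := by
  constructor
  · intro r _ _; simp
  · refine ⟨0, ?_⟩
    rintro s ⟨r, _, rfl⟩
    simp [hardyMean]

lemma hardyNorm_zero : hardyNorm 0 = 0 := by
  unfold hardyNorm
  have : hardyMean 0 '' Set.Ico 0 1 = {0} := by
    ext s
    constructor
    · rintro ⟨r, _, rfl⟩; simp [hardyMean]
    · rintro rfl
      exact ⟨0, by simp, by simp [hardyMean]⟩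
  rw [this, csSup_singleton]

/-! ### linear structure of `VMO_A ⊗̂ H¹` -/

/-- interleaving of two sequences -/
def interleave (f f' : ℕ → PowerSeries ℂ) (m : ℕ) : PowerSeries ℂ :=
  if m % 2 = 0 then f (m / 2) else f' (m / 2)

lemma interleave_even (f f' : ℕ → PowerSeries ℂ) (m : ℕ) : interleave f f' (2 * m) = f m := by
  unfold interleave
  rw [if_pos (by omega)]
  congr 1; omega

lemma interleave_odd (f f' : ℕ → PowerSeries ℂ) (m : ℕ) : interleave f f' (2 * m + 1) = f' m := by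
  unfold interleave
  rw [if_neg (by omega)]
  congr 1; omega

lemma Decomposes.add {f g f' g' : ℕ → PowerSeries ℂ} {φ φ' : PowerSeries ℂ} (h : Decomposes f g φ)
    (h' : Decomposes f' g' φ') : Decomposes (interleave f f') (interleave g g') (φ + φ') := by
  refine ⟨?_, ?_, ?_, ?_⟩
  · intro m; unfold interleave; split_ifs
    · exact h.1 _
    · exact h'.1 _
  · intro m; unfold interleave; split_ifs
    · exact h.2.1 _
    · exact h'.2.1 _
  · have he : HasSum (fun m => vmoNorm (interleave f f' (2 * m)) * hardyNorm (interleave g g' (2 * m)))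
        (∑' m, vmoNorm (f m) * hardyNorm (g m)) := by
      simp only [interleave_even]; exact h.2.2.1.hasSum
    have ho : HasSum (fun m => vmoNorm (interleave f f' (2 * m + 1)) * hardyNorm (interleave g g' (2 * m + 1)))
        (∑' m, vmoNorm (f' m) * hardyNorm (g' m)) := by
      simp only [interleave_odd]; exact h'.2.2.1.hasSum
    exact (HasSum.even_add_odd (f := fun m => vmoNorm (interleave f f' m) * hardyNorm (interleave g g' m))
      he ho).summable
  · intro n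
    rw [map_add]
    have he : HasSum (fun m => PowerSeries.coeff n (interleave f f' (2 * m)) * PowerSeries.coeff n (interleave g g' (2 * m)))
        (PowerSeries.coeff n φ) := by
      simp only [interleave_even]; exact h.2.2.2 n
    have ho : HasSum (fun m => PowerSeries.coeff n (interleave f f' (2 * m + 1)) * PowerSeries.coeff n (interleave g g' (2 * m + 1)))
        (PowerSeries.coeff n φ') := by
      simp only [interleave_odd]; exact h'.2.2.2 n
    exact HasSum.even_add_odd (f := fun m => PowerSeries.coeff n (interleave f f' m) *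
      PowerSeries.coeff n (interleave g g' m)) he ho

lemma Decomposes.smul {f g : ℕ → PowerSeries ℂ} {φ : PowerSeries ℂ} (c : ℂ) (h : Decomposes f g φ) :
    Decomposes (fun m => c • f m) g (c • φ) := by
  refine ⟨fun m => (h.1 m).smul c, h.2.1, ?_, ?_⟩
  · apply Summable.of_nonneg_of_le (fun m => mul_nonneg (vmoNorm_nonneg _) (hardyNorm_nonneg _)) _
      (h.2.2.1.mul_left ‖c‖)
    intro m
    rw [← mul_assoc]
    exact mul_le_mul_of_nonneg_right (vmoNorm_smul_le c (h.1 m)) (hardyNorm_nonneg _)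
  · intro n
    have := (h.2.2.2 n).mul_left c
    simp only [PowerSeries.coeff_smul, smul_eq_mul]
    simpa only [mul_assoc] using this

lemma Decomposes.zero : Decomposes (fun _ => 0) (fun _ => 0) 0 := by
  refine ⟨fun _ => InVMOA.zero, fun _ => InHardy.zero, ?_, ?_⟩
  · simp only [vmoNorm_zero, zero_mul]; exact summable_zero
  · intro n; simp only [map_zero, mul_zero]; exact hasSum_zero

/-- The space `VMO_A ⊗̂ H¹`: all power series with such a decomposition. -/
def spaceVH : Set (PowerSeries ℂ) := {φ | ∃ f g, Decomposes f g φ}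

/-- `VMO_A ⊗̂ H¹` is a linear space. -/
def submoduleVH : Submodule ℂ (PowerSeries ℂ) where
  carrier := spaceVH
  zero_mem' := ⟨_, _, Decomposes.zero⟩
  add_mem' := by
    rintro φ φ' ⟨f, g, h⟩ ⟨f', g', h'⟩
    exact ⟨_, _, h.add h'⟩
  smul_mem' := by
    rintro c φ ⟨f, g, h⟩
    exact ⟨_, _, h.smul c⟩

/-! ## Monomials -/

lemma pow_mem_L (n : ℕ) : ∃ γ, InInjective γ ∧ InjBound γ 1 ∧ Represents γ ((PowerSeries.X : PowerSeries ℂ)^n) := by
  have hb : InjBound (fun m k => if m = 0 ∧ k = n then (1:ℂ) else 0) 1 := by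
    intro x y hx hy M
    have e1 : ∀ m ∈ range M, ∑ k ∈ range M, (if m = 0 ∧ k = n then (1:ℂ) else 0) * x m * y k
        = if m = 0 then (if n < M then x 0 * y n else 0) else 0 := by
      intro m _
      rcases eq_or_ne m 0 with rfl | hm
      · simp only [true_and, if_true, ite_mul, one_mul, zero_mul, sum_ite_eq', mem_range]
      · simp [hm]
    rw [sum_congr rfl e1]
    simp only [sum_ite_eq', mem_range]
    split_ifs with h1 h2
    · rw [norm_mul]
      have := hx 0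
      have := hy n
      have := norm_nonneg (x 0)
      have := norm_nonneg (y n)
      nlinarith
    · simp
    · simp
  refine ⟨_, ?_, hb, ?_⟩
  · intro ε hε
    refine ⟨fun m k => if m = 0 ∧ k = n then (1:ℂ) else 0, ⟨n + 1, ?_⟩, ?_⟩
    · intro m k hmk
      simp only
      rw [if_neg]
      rintro ⟨h1, h2⟩
      omega
    · intro x y _ _ M
      simp; exact hε.le
  · intro j
    rw [PowerSeries.coeff_X_pow]
    split_ifs with h
    · subst h
      rw [sum_eq_single (0, j)]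
      · simp
      · rintro ⟨a, b⟩ hab hne
        simp only
        rw [if_neg]
        rintro ⟨h1, h2⟩
        exact hne (by rw [h1, h2])
      · intro h; exact absurd (by simp) h
    · apply sum_eq_zero
      rintro ⟨a, b⟩ hab
      simp only
      rw [if_neg]
      rintro ⟨h1, h2⟩
      have := HasAntidiagonal.mem_antidiagonal.1 hab
      simp only at this
      omega

lemma normL_nonneg (φ : PowerSeries ℂ) : 0 ≤ normL φ := by
  apply Real.sInf_nonneg
  rintro s ⟨γ, _, h, _⟩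
  exact h.nonneg

lemma normL_pow (n : ℕ) : normL ((PowerSeries.X : PowerSeries ℂ)^n) ≤ 1 := by
  apply csInf_le
  · refine ⟨0, ?_⟩
    rintro s ⟨γ, _, h, _⟩
    exact h.nonneg
  · exact pow_mem_L n

lemma Extends_pow (n : ℕ) : Extends (fourier (T := 1) (n : ℤ)) ((PowerSeries.X : PowerSeries ℂ)^n) := by
  intro m
  rw [PowerSeries.coeff_X_pow, fourierCoeff_fourier (T := 1) (n : ℤ)]
  rcases eq_or_ne m n with rfl | h
  · simp
  · rw [if_neg h, Pi.single_eq_of_ne]
    exact_mod_cast h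

lemma vmoNorm_pow (n : ℕ) : vmoNorm ((PowerSeries.X : PowerSeries ℂ)^n) ≤ 1 := by
  refine (vmoNorm_le (Extends_pow n)).trans ?_
  rw [fourier_norm]

lemma hardyMean_pow (n : ℕ) {r : ℝ} (hr : 0 ≤ r) : hardyMean ((PowerSeries.X : PowerSeries ℂ)^n) r = r^n := by
  unfold hardyMean
  have h : ∀ t : ℝ, ‖∑' k, PowerSeries.coeff k ((PowerSeries.X : PowerSeries ℂ)^n) *
      ((r:ℂ) * Complex.exp (2 * Real.pi * Complex.I * t)) ^ k‖ = r^n := by
    intro t
    rw [tsum_eq_single n]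
    · rw [PowerSeries.coeff_X_pow, if_pos rfl, one_mul, norm_pow, norm_mul]
      have := norm_e t
      unfold e at this
      rw [this, mul_one, Complex.norm_real, Real.norm_eq_abs, abs_of_nonneg hr]
    · intro k hk
      rw [PowerSeries.coeff_X_pow, if_neg hk, zero_mul]
  simp_rw [h]
  simp

lemma InHardy_pow (n : ℕ) : InHardy ((PowerSeries.X : PowerSeries ℂ)^n) := by
  constructor
  · intro r _ _
    apply summable_of_ne_finset_zero (s := {n})
    intro k hk
    rw [PowerSeries.coeff_X_pow, if_neg (by simpa using hk)]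
    simp
  · refine ⟨1, ?_⟩
    rintro s ⟨r, hr, rfl⟩
    rw [hardyMean_pow n hr.1]
    exact pow_le_one₀ hr.1 hr.2.le

lemma hardyNorm_pow (n : ℕ) : hardyNorm ((PowerSeries.X : PowerSeries ℂ)^n) ≤ 1 := by
  apply csSup_le
  · exact ⟨_, 0, by simp, rfl⟩
  · rintro s ⟨r, hr, rfl⟩
    rw [hardyMean_pow n hr.1]
    exact pow_le_one₀ hr.1 hr.2.le

lemma pow_decomposes (n : ℕ) : Decomposes
    (fun m => if m = 0 then (PowerSeries.X : PowerSeries ℂ)^n else 0)
    (fun m => if m = 0 then (PowerSeries.X : PowerSeries ℂ)^n else 0) ((PowerSeries.X : PowerSeries ℂ)^n) := by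
  refine ⟨?_, ?_, ?_, ?_⟩
  · intro m; simp only; split_ifs
    · exact ⟨_, Extends_pow n⟩
    · exact InVMOA.zero
  · intro m; simp only; split_ifs
    · exact InHardy_pow n
    · exact InHardy.zero
  · apply summable_of_ne_finset_zero (s := {0})
    intro k hk
    simp only
    rw [if_neg (by simpa using hk), vmoNorm_zero, zero_mul]
  · intro k
    have : PowerSeries.coeff k ((PowerSeries.X : PowerSeries ℂ)^n)
        = PowerSeries.coeff k (if (0:ℕ) = 0 then (PowerSeries.X : PowerSeries ℂ)^n else 0) *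
          PowerSeries.coeff k (if (0:ℕ) = 0 then (PowerSeries.X : PowerSeries ℂ)^n else 0) := by
      rw [if_pos rfl, PowerSeries.coeff_X_pow]; split_ifs <;> simp
    rw [this]
    apply hasSum_single
    intro m hm
    simp only
    rw [if_neg hm, map_zero, mul_zero]

lemma bddBelow_VH (φ : PowerSeries ℂ) :
    BddBelow {s : ℝ | ∃ f g, Decomposes f g φ ∧ s = ∑' m, vmoNorm (f m) * hardyNorm (g m)} := by
  refine ⟨0, ?_⟩
  rintro s ⟨f, g, _, rfl⟩
  exact tsum_nonneg (fun m => mul_nonneg (vmoNorm_nonneg _) (hardyNorm_nonneg _))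

lemma normVH_nonneg (φ : PowerSeries ℂ) : 0 ≤ normVH φ := by
  apply Real.sInf_nonneg
  rintro s ⟨f, g, _, rfl⟩
  exact tsum_nonneg (fun m => mul_nonneg (vmoNorm_nonneg _) (hardyNorm_nonneg _))

lemma normVH_pow (n : ℕ) : normVH ((PowerSeries.X : PowerSeries ℂ)^n) ≤ 1 := by
  have h1 : normVH ((PowerSeries.X : PowerSeries ℂ)^n) ≤ _ :=
    csInf_le (bddBelow_VH _) ⟨_, _, pow_decomposes n, rfl⟩
  refine h1.trans ?_
  rw [tsum_eq_single 0]
  · rw [if_pos rfl]
    have a := vmoNorm_pow n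
    have b := hardyNorm_pow n
    have c := vmoNorm_nonneg ((PowerSeries.X : PowerSeries ℂ)^n)
    have d := hardyNorm_nonneg ((PowerSeries.X : PowerSeries ℂ)^n)
    nlinarith
  · intro m hm
    rw [if_neg hm, vmoNorm_zero, zero_mul]

/-! ## Lower bounds -/

lemma poly_mem (X : Submodule ℂ (PowerSeries ℂ)) (hX : ∀ n : ℕ, (PowerSeries.X : PowerSeries ℂ)^n ∈ X)
    (p : Polynomial ℂ) : (p : PowerSeries ℂ) ∈ X := by
  induction p using Polynomial.induction_on' with
  | add p q hp hq => rw [Polynomial.coe_add]; exact X.add_mem hp hq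
  | monomial n c =>
    have : ((Polynomial.monomial n c : Polynomial ℂ) : PowerSeries ℂ) = c • (PowerSeries.X : PowerSeries ℂ)^n := by
      rw [← Polynomial.C_mul_X_pow_eq_monomial, Polynomial.coe_mul, Polynomial.coe_pow, Polynomial.coe_X,
        Polynomial.coe_C, PowerSeries.smul_eq_C_mul]
    rw [this]
    exact X.smul_mem _ (hX n)

lemma poly_eq_sum (φ : Polynomial ℂ) : (φ : PowerSeries ℂ)
    = ∑ i ∈ range (φ.natDegree + 1), φ.coeff i • (PowerSeries.X : PowerSeries ℂ)^i := by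
  ext n
  rw [Polynomial.coeff_coe, map_sum]
  simp only [PowerSeries.coeff_smul, PowerSeries.coeff_X_pow, smul_eq_mul, mul_ite, mul_one, mul_zero]
  rw [sum_ite_eq (range (φ.natDegree + 1)) n]
  split_ifs with h
  · rfl
  · rw [Polynomial.coeff_eq_zero_of_natDegree_lt]
    rw [mem_range] at h
    omega

lemma mem_spaceL_pow (n : ℕ) : (PowerSeries.X : PowerSeries ℂ)^n ∈ spaceL := by
  obtain ⟨γ, h1, h2, h3⟩ := pow_mem_L n
  exact ⟨γ, 1, h1, h2, h3⟩

lemma mem_spaceVH_pow (n : ℕ) : (PowerSeries.X : PowerSeries ℂ)^n ∈ spaceVH :=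
  ⟨_, _, pow_decomposes n⟩

lemma lower_L (N : ℕ) :
    (N:ℝ)^3 ≤ 2 * Real.sqrt 3 * Real.sqrt (2 * N) * normL (Phi N : PowerSeries ℂ) := by
  have hmem : (Phi N : PowerSeries ℂ) ∈ spaceL := poly_mem submoduleL mem_spaceL_pow _
  obtain ⟨γ₀, B₀, h1, h2, h3⟩ := hmem
  rcases Nat.eq_zero_or_pos N with rfl | hN
  · simp
  have hpos : 0 < 2 * Real.sqrt 3 * Real.sqrt (2 * N) := by positivity
  rw [← div_le_iff₀' hpos]
  have hne : {B : ℝ | ∃ γ, InInjective γ ∧ InjBound γ B ∧ Represents γ (Phi N : PowerSeries ℂ)}.Nonempty :=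
    ⟨B₀, γ₀, h1, h2, h3⟩
  refine le_csInf hne ?_
  rintro B ⟨γ, _, hB, hγ⟩
  rw [div_le_iff₀' hpos]
  have := pairing hB (Psi N) (Real.sqrt_nonneg (2 * N)) (Psi_window N) (Lam N N) (fun n hn => Psi_zero hn)
  have e1 : ∑ n ∈ range (Lam N N), Psi N n * ∑ p ∈ HasAntidiagonal.antidiagonal n, γ p.1 p.2 = (N:ℂ)^3 := by
    rw [← Phi_pairing]
    refine sum_congr rfl (fun n _ => ?_)
    rw [hγ n, Polynomial.coeff_coe]
  rw [e1] at this
  simpa using this

lemma lower_VH (N : ℕ) :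
    (N:ℝ)^3 ≤ 2 * Real.sqrt 3 * Real.sqrt (2 * N) * normVH (Phi N : PowerSeries ℂ) := by
  have hmem : (Phi N : PowerSeries ℂ) ∈ spaceVH := poly_mem submoduleVH mem_spaceVH_pow _
  obtain ⟨f₀, g₀, h₀⟩ := hmem
  rcases Nat.eq_zero_or_pos N with rfl | hN
  · simp
  have hpos : 0 < 2 * Real.sqrt 3 * Real.sqrt (2 * N) := by positivity
  rw [← div_le_iff₀' hpos]
  have hne : {s : ℝ | ∃ f g, Decomposes f g (Phi N : PowerSeries ℂ) ∧
      s = ∑' m, vmoNorm (f m) * hardyNorm (g m)}.Nonempty := ⟨_, f₀, g₀, h₀, rfl⟩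
  refine le_csInf hne ?_
  rintro s ⟨f, g, h, rfl⟩
  rw [div_le_iff₀' hpos]
  -- each term
  have hterm : ∀ m, ‖∑ n ∈ range (Lam N N), Psi N n *
      (PowerSeries.coeff n (f m) * PowerSeries.coeff n (g m))‖
      ≤ 2 * Real.sqrt 3 * Real.sqrt (2 * N) * (vmoNorm (f m) * hardyNorm (g m)) := by
    intro m
    obtain ⟨F₀, hF₀⟩ := h.1 m
    have hg := h.2.1 m
    have hBd : ∀ r : ℝ, 0 ≤ r → r < 1 → hardyMean (g m) r ≤ hardyNorm (g m) := by
      intro r h0 h1
      exact le_csSup hg.2 ⟨r, ⟨h0, h1⟩, rfl⟩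
    have hall : ∀ F, Extends F (f m) → ‖∑ n ∈ range (Lam N N), Psi N n *
      (PowerSeries.coeff n (f m) * PowerSeries.coeff n (g m))‖
      ≤ 2 * Real.sqrt 3 * Real.sqrt (2 * N) * (‖F‖ * hardyNorm (g m)) := by
      intro F hF
      have := key_hardy F (Psi N) (Real.sqrt_nonneg (2 * N)) (Psi_window N) (Lam N N)
        (fun n hn => Psi_zero hn) (g m) hg.1 hBd
      refine le_trans (le_of_eq ?_) this
      congr 1
      refine sum_congr rfl (fun n _ => ?_)
      rw [hF n]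
    rcases (hardyNorm_nonneg (g m)).eq_or_lt with h0 | hp
    · have := hall F₀ hF₀
      rw [← h0] at this ⊢
      simpa using this
    · have hp2 : 0 < 2 * Real.sqrt 3 * Real.sqrt (2 * N) * hardyNorm (g m) := by positivity
      have hr : 2 * Real.sqrt 3 * Real.sqrt (2 * N) * (vmoNorm (f m) * hardyNorm (g m))
          = 2 * Real.sqrt 3 * Real.sqrt (2 * N) * hardyNorm (g m) * vmoNorm (f m) := by ring
      rw [hr, ← div_le_iff₀' hp2]
      have hne2 : {s : ℝ | ∃ F, Extends F (f m) ∧ s = ‖F‖}.Nonempty := ⟨_, F₀, hF₀, rfl⟩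
      refine le_csInf hne2 ?_
      rintro s ⟨F, hF, rfl⟩
      rw [div_le_iff₀' hp2]
      refine (hall F hF).trans (le_of_eq (by ring))
  have hsum : HasSum (fun m => ∑ n ∈ range (Lam N N), Psi N n *
      (PowerSeries.coeff n (f m) * PowerSeries.coeff n (g m))) ((N:ℂ)^3) := by
    rw [← Phi_pairing]
    apply hasSum_sum
    intro n _
    have := (h.2.2.2 n).mul_left (Psi N n)
    rwa [Polynomial.coeff_coe] at this
  have hs2 : Summable (fun m => 2 * Real.sqrt 3 * Real.sqrt (2 * N) * (vmoNorm (f m) * hardyNorm (g m))) :=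
    h.2.2.1.mul_left _
  have := hsum.tsum_eq ▸ tsum_of_norm_bounded hs2.hasSum hterm
  rw [tsum_mul_left] at this
  simpa using this

/-! ## Non-sharpness -/

lemma exists_N (K c : ℝ) (hc : 0 < c) : ∃ N : ℕ, 0 < N ∧
    2 * Real.sqrt 3 * Real.sqrt (2 * N) * ((N:ℝ)^2 * K^3) < c * (N:ℝ)^3 := by
  obtain ⟨N, hN⟩ := exists_nat_gt ((2 * Real.sqrt 3 * Real.sqrt 2 * K^3 / c)^2)
  have hN0 : (0:ℝ) < N := lt_of_le_of_lt (sq_nonneg _) hN
  refine ⟨N, by exact_mod_cast hN0, ?_⟩
  have h1 : 2 * Real.sqrt 3 * Real.sqrt 2 * K^3 / c < Real.sqrt N := by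
    apply Real.lt_sqrt_of_sq_lt hN
  rw [div_lt_iff₀ hc] at h1
  have h2 : Real.sqrt (2 * N) = Real.sqrt 2 * Real.sqrt N := Real.sqrt_mul (by norm_num) _
  have h3 : Real.sqrt N * Real.sqrt N = N := Real.mul_self_sqrt hN0.le
  have h4 : 0 < Real.sqrt N := Real.sqrt_pos.2 hN0
  rw [h2]
  calc 2 * Real.sqrt 3 * (Real.sqrt 2 * Real.sqrt N) * ((N:ℝ)^2 * K^3)
      = (2 * Real.sqrt 3 * Real.sqrt 2 * K^3) * ((N:ℝ)^2 * Real.sqrt N) := by ring
    _ < (Real.sqrt N * c) * ((N:ℝ)^2 * Real.sqrt N) := by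
        apply mul_lt_mul_of_pos_right h1; positivity
    _ = c * (N^2 * (Real.sqrt N * Real.sqrt N)) := by ring
    _ = _ := by rw [h3]; ring

/-- Internal form of the failure of sharpness, with a test polynomial vanishing at `0`. -/
def NotSharpAux.{u} (nrm : PowerSeries ℂ → ℝ) : Prop :=
  ∀ K c : ℝ, 0 < c → ∃ φ : Polynomial ℂ, φ.coeff 0 = 0 ∧
    ∀ (H : Type u) [NormedAddCommGroup H] [InnerProductSpace ℂ H] [CompleteSpace H] (T : H →L[ℂ] H),
      (∀ n : ℕ, ‖T ^ n‖ ≤ K) → ‖Polynomial.aeval T φ‖ < c * nrm (φ : PowerSeries ℂ)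

lemma notSharp_of_lower.{u} (nrm : PowerSeries ℂ → ℝ)
    (h : ∀ N : ℕ, (N:ℝ)^3 ≤ 2 * Real.sqrt 3 * Real.sqrt (2 * N) * nrm (Phi N : PowerSeries ℂ)) :
    NotSharpAux.{u} nrm := by
  intro K c hc
  obtain ⟨N, hN, hlt⟩ := exists_N K c hc
  refine ⟨Phi N, Phi_coeff_zero N, ?_⟩
  intro H _ _ _ T hT
  have hK : 0 ≤ K := (norm_nonneg _).trans (hT 0)
  rw [Phi_aeval]
  have h1 := op_bound hN T hK hT
  refine lt_of_le_of_lt h1 ?_
  have hN' : (0:ℝ) < N := by exact_mod_cast hN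
  have hpos : 0 < 2 * Real.sqrt 3 * Real.sqrt (2 * N) := by positivity
  have h2 : 2 * Real.sqrt 3 * Real.sqrt (2 * N) * ((N:ℝ)^2 * K^3)
      < 2 * Real.sqrt 3 * Real.sqrt (2 * N) * (c * nrm (Phi N : PowerSeries ℂ)) := by
    calc _ < c * (N:ℝ)^3 := hlt
      _ ≤ c * (2 * Real.sqrt 3 * Real.sqrt (2 * N) * nrm (Phi N : PowerSeries ℂ)) := by
          gcongr; exact h N
      _ = _ := by ring
  exact lt_of_mul_lt_mul_left h2 hpos.le

/-- Some element `T` of the normed algebra `A` satisfies `‖T ^ n‖ ≤ K` for all `n` and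
`c * nrm φ ≤ ‖φ(T)‖`. -/
def Attains (A : Type*) [NormedRing A] [NormedAlgebra ℂ A] (nrm : PowerSeries ℂ → ℝ) (K c : ℝ)
    (φ : Polynomial ℂ) : Prop :=
  ∃ T : A, (∀ n : ℕ, ‖T ^ n‖ ≤ K) ∧ c * nrm (φ : PowerSeries ℂ) ≤ ‖Polynomial.aeval T φ‖

/-- The estimate `‖φ(T)‖ ≤ const * nrm φ` for power bounded operators on Hilbert spaces is sharp:
for some `K` and some `c > 0`, every polynomial `φ` admits an operator `T` on a Hilbert space with
`‖T ^ n‖ ≤ K` for all `n` and `c * nrm φ ≤ ‖φ(T)‖`. -/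
def IsSharp.{u} (nrm : PowerSeries ℂ → ℝ) : Prop :=
  ∃ K c : ℝ, 0 < c ∧ ∀ φ : Polynomial ℂ,
    ∃ (H : Type u) (_ : NormedAddCommGroup H) (_ : InnerProductSpace ℂ H) (_ : CompleteSpace H),
      Attains (H →L[ℂ] H) nrm K c φ

/-- `X`, normed by `nrm`, embeds in the normed algebra `A`: there is a map `ρ`, linear and
multiplicative on `X`, with `c * nrm f ≤ ‖ρ f‖ ≤ C * nrm f` on `X` and `c > 0`. Multiplicativity is only
asked for products which stay in `X`, and `X` is not asked to be closed under products. -/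
def EmbedsIn (X : Set (PowerSeries ℂ)) (nrm : PowerSeries ℂ → ℝ) (A : Type*) [NormedRing A]
    [NormedAlgebra ℂ A] : Prop :=
  ∃ (ρ : PowerSeries ℂ → A) (c C : ℝ), 0 < c ∧
    (∀ f ∈ X, ∀ g ∈ X, ρ (f + g) = ρ f + ρ g) ∧
    (∀ a : ℂ, ∀ f ∈ X, ρ (a • f) = a • ρ f) ∧
    (∀ f ∈ X, ∀ g ∈ X, f * g ∈ X → ρ (f * g) = ρ f * ρ g) ∧
    ∀ f ∈ X, c * nrm f ≤ ‖ρ f‖ ∧ ‖ρ f‖ ≤ C * nrm f

/-- `X`, normed by `nrm`, embeds in the algebra of bounded operators of some Hilbert space `H`, in the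
sense of `EmbedsIn`; every operator algebra in the usual sense has this property. -/
def IsOperatorAlgebra.{u} (X : Set (PowerSeries ℂ)) (nrm : PowerSeries ℂ → ℝ) : Prop :=
  ∃ (H : Type u) (_ : NormedAddCommGroup H) (_ : InnerProductSpace ℂ H) (_ : CompleteSpace H),
    EmbedsIn X nrm (H →L[ℂ] H)

lemma not_sharp_of_aux.{u} {nrm : PowerSeries ℂ → ℝ} (h : NotSharpAux.{u} nrm) : ¬ IsSharp.{u} nrm := by
  rintro ⟨K, c, hc, hφ⟩
  obtain ⟨φ, _, h1⟩ := h K c hc
  obtain ⟨H, i1, i2, i3, T, hT, h2⟩ := hφ φ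
  exact absurd h2 (not_le.2 (h1 H T hT))

lemma not_operatorAlgebra.{u} (X : Submodule ℂ (PowerSeries ℂ)) (nrm : PowerSeries ℂ → ℝ)
    (hX : ∀ n : ℕ, (PowerSeries.X : PowerSeries ℂ)^n ∈ X)
    (hn : ∀ n : ℕ, nrm ((PowerSeries.X : PowerSeries ℂ)^n) ≤ 1)
    (h0 : ∀ φ, 0 ≤ nrm φ)
    (hs : NotSharpAux.{u} nrm) : ¬ IsOperatorAlgebra.{u} (X : Set (PowerSeries ℂ)) nrm := by
  rintro ⟨H, _, _, _, ρ₀, c, C, hc, hadd, hsmul, hmul₀, hnorm₀⟩
  let ρ : X →ₗ[ℂ] (H →L[ℂ] H) :=
    { toFun := fun f => ρ₀ f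
      map_add' := fun f g => hadd _ f.2 _ g.2
      map_smul' := fun a f => hsmul a _ f.2 }
  have hmul : ∀ f g h : X, (h : PowerSeries ℂ) = f * g → ρ h = ρ f * ρ g := by
    intro f g h hh
    have hmem : (f : PowerSeries ℂ) * g ∈ (X : Set (PowerSeries ℂ)) := by rw [← hh]; exact h.2
    change ρ₀ h = ρ₀ f * ρ₀ g
    rw [hh]
    exact hmul₀ _ f.2 _ g.2 hmem
  have hnorm : ∀ f : X, c * nrm f ≤ ‖ρ f‖ ∧ ‖ρ f‖ ≤ C * nrm f := fun f => hnorm₀ f f.2
  set T : H →L[ℂ] H := ρ ⟨_, hX 1⟩ with hT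
  have hpow : ∀ n : ℕ, ρ ⟨_, hX (n+1)⟩ = T^(n+1) := by
    intro n
    induction n with
    | zero => rw [pow_one T]
    | succ n ih =>
      have h1 := hmul ⟨_, hX (n+1)⟩ ⟨_, hX 1⟩ ⟨_, hX (n+1+1)⟩ (by simp only; rw [← pow_add])
      rw [h1, ih, pow_succ T (n+1)]
  have hTn : ∀ n : ℕ, ‖T^n‖ ≤ max C 1 := by
    intro n
    rcases n with _ | n
    · rw [pow_zero]
      exact (ContinuousLinearMap.norm_id_le).trans (le_max_right _ _)
    · rw [← hpow]
      refine (hnorm _).2.trans ?_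
      have h1 := hn (n+1)
      have h2 := h0 ((PowerSeries.X : PowerSeries ℂ)^(n+1))
      calc C * nrm ((PowerSeries.X : PowerSeries ℂ)^(n+1))
          ≤ max C 1 * nrm ((PowerSeries.X : PowerSeries ℂ)^(n+1)) := by gcongr; exact le_max_left _ _
        _ ≤ max C 1 * 1 := by gcongr
        _ = _ := mul_one _
  obtain ⟨φ, hφ0, hφ⟩ := hs (max C 1) c hc
  have h1 := hφ H T hTn
  have h2 : Polynomial.aeval T φ = ρ ⟨_, poly_mem X hX φ⟩ := by
    rw [Polynomial.aeval_eq_sum_range]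
    have h3 : (⟨_, poly_mem X hX φ⟩ : X) = ∑ i ∈ range (φ.natDegree + 1), φ.coeff i • (⟨_, hX i⟩ : X) := by
      apply Subtype.ext
      simp only [AddSubmonoidClass.coe_finsetSum, SetLike.val_smul]
      exact poly_eq_sum φ
    rw [h3, map_sum]
    refine sum_congr rfl (fun i _ => ?_)
    rw [map_smul]
    rcases i with _ | i
    · rw [hφ0, zero_smul, zero_smul]
    · rw [hpow]
  have h3 := (hnorm ⟨_, poly_mem X hX φ⟩).1
  rw [h2] at h1
  exact absurd h3 (not_le.2 h1)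

/-- Sanity check: both spaces contain all polynomials. -/
lemma polynomial_mem (p : Polynomial ℂ) : (p : PowerSeries ℂ) ∈ spaceL ∧ (p : PowerSeries ℂ) ∈ spaceVH :=
  ⟨poly_mem submoduleL mem_spaceL_pow p, poly_mem submoduleVH mem_spaceVH_pow p⟩

/-- Neither `𝓛` nor `VMO_A ⊗̂ H¹` is an operator algebra, and neither of the two corresponding
estimates for power bounded operators is sharp. -/
theorem result.{u} :
    (¬ IsOperatorAlgebra.{u} spaceL normL ∧ ¬ IsSharp.{u} normL) ∧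
    (¬ IsOperatorAlgebra.{u} spaceVH normVH ∧ ¬ IsSharp.{u} normVH) := by
  have hL : NotSharpAux.{u} normL := notSharp_of_lower _ lower_L
  have hV : NotSharpAux.{u} normVH := notSharp_of_lower _ lower_VH
  exact ⟨⟨not_operatorAlgebra submoduleL _ mem_spaceL_pow normL_pow normL_nonneg hL, not_sharp_of_aux hL⟩,
    ⟨not_operatorAlgebra submoduleVH _ mem_spaceVH_pow normVH_pow normVH_nonneg hV, not_sharp_of_aux hV⟩⟩

end Pool.Agent.Results.MP_20ef18_an.OpAlg
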